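import Mathlib
import Pool.Agent.Work.MP_787500_nt.QS.Change
import Pool.Agent.Work.MP_787500_nt.QS.IndLag
import Pool.Agent.Work.MP_787500_nt.QV.LagSq

/-!
# The parity of the distance of two Lagrangian conditions at a place

* `dst X Y = |X| |X ∩ Y|`: the parity of its exponent is the parity of the distance of `X` and `Y`.
* `dst_trans`: the parity of the distance is transitive on Lagrangian conditions (`KR.lag3`).
* `ind_dst`: induction from `Vb` to `V` preserves the distance.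
-/

set_option autoImplicit false
set_option linter.unusedSectionVars false

namespace Pool.Agent.Work.MP_787500_nt.OL

open Pool.Agent.Work.MP_787500_nt.GP (A0 IsAct d0 d1 d2 tw cup11 cup21 cup12 cup01 cup02 EvPow IsPow
  card_pow isPow_mul evPow_cancel evPow_sq evPow_mul q_two_le)
open Pool.Agent.Work.MP_787500_nt.KR (FSys Sm1 Sm2 IsChar Smooth Z1 Z2 B2 LocH LocD Pair LDual IsTr zM
  z1s b1s h1 lag3)
open Pool.Agent.Work.MP_787500_nt.QS (QM Lag pB Zq indY redY locB locB_bal locB_symm locB_apply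
  iv_Zq_add)

universe v

section dst

variable {O : Type*} [CommRing O] {A : Type*} [AddCommGroup A] [Module O A]

/-- the distance -/
noncomputable def dst (X Y : Submodule O A) : ℕ := Nat.card X * Nat.card ↥(X ⊓ Y)

theorem card_map {B : Type*} [AddCommGroup B] [Module O B] (f : A →ₗ[O] B) (M : Submodule O A) :
    Nat.card M = Nat.card ↥(M ⊓ LinearMap.ker f) * Nat.card (M.map f) := by
  have h1 : Nat.card M = Nat.card (LinearMap.ker (f.domRestrict M)) *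
      Nat.card (LinearMap.range (f.domRestrict M)) := by
    rw [Submodule.card_eq_card_quotient_mul_card (LinearMap.ker (f.domRestrict M)),
      Nat.card_congr (f.domRestrict M).quotKerEquivRange.toEquiv]
  have h2 : LinearMap.range (f.domRestrict M) = M.map f := by
    ext y
    constructor
    · rintro ⟨x, rfl⟩
      exact ⟨x.1, x.2, rfl⟩
    · rintro ⟨x, hx, rfl⟩
      exact ⟨⟨x, hx⟩, rfl⟩
  have h3 : Nat.card (LinearMap.ker (f.domRestrict M)) = Nat.card ↥(M ⊓ LinearMap.ker f) :=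
    Nat.card_congr ⟨fun x => ⟨x.1.1, x.1.2, x.2⟩, fun x => ⟨⟨x.1, x.2.1⟩, x.2.2⟩, fun _ => rfl,
      fun _ => rfl⟩
  rw [h1, h2, h3]

end dst

section trans

variable {X : Type*} [Group X] {T : FSys X} {χ : X → ℤ_[2]} {iv : (X → X → A0) → A0}
  {O : Type*} [CommRing O] [IsLocalRing O] [Finite (IsLocalRing.ResidueField O)] {V : Type*}
  [AddCommGroup V] [Module O V] {ρ : X → V → V} {β : V →+ V →+ A0} {l : O → X → V → A0}

/-- a Lagrangian condition is finite -/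
theorem lag_fin (h : QM T χ O ρ β l) (hf : Finite (zM (O := O) T h.act h.lin))
    {Y : Submodule O (X → V)} (hY : Lag T iv ρ β l Y) : Finite Y :=
  Finite.of_injective (fun x : Y => (⟨x.1, hY.coc _ x.2⟩ : zM (O := O) T h.act h.lin))
    fun _ _ hxy => Subtype.ext (congrArg (fun z : zM (O := O) T h.act h.lin => z.1) hxy)

/-- THE PARITY OF THE DISTANCE IS TRANSITIVE. -/
theorem dst_trans (hL : LocH T χ iv) (h : QM T χ O ρ β l)
    (hf : Finite (zM (O := O) T h.act h.lin)) {Y₁ Y₂ Y₃ : Submodule O (X → V)}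
    (hY₁ : Lag T iv ρ β l Y₁) (hY₂ : Lag T iv ρ β l Y₂) (hY₃ : Lag T iv ρ β l Y₃) :
    EvPow (Nat.card (IsLocalRing.ResidueField O)) (dst Y₁ Y₂ * dst Y₂ Y₃ * dst Y₁ Y₃) := by
  have key := lag3 (O := O) (Z := zM (O := O) T h.act h.lin) (locB hL h) (locB_bal hL h)
    (locB_symm hL h) (Y₁.comap (zM (O := O) T h.act h.lin).subtype)
    (Y₂.comap (zM (O := O) T h.act h.lin).subtype) (Y₃.comap (zM (O := O) T h.act h.lin).subtype)
    (by
      rw [hY₁.perp hL h]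
      refine (sup_eq_left.2 ?_).symm
      have h1 := KR.perpS_top_le (locB hL h) (locB_bal hL h)
        (Y₁.comap (zM (O := O) T h.act h.lin).subtype)
      rw [hY₁.perp hL h] at h1
      exact h1)
    (hY₂.perp hL h) (hY₃.perp hL h) (by
      intro a y hy w hw hyw
      have h1 := iv_Zq_add hL h y.2 w.2 a
      have h2 : iv (Zq ρ β l a ((y : X → V) + (w : X → V))) = 0 := hY₁.iso a _ hyw
      have h3 : iv (Zq ρ β l a (y : X → V)) = 0 := hY₂.iso a _ hy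
      have h4 : iv (Zq ρ β l a (w : X → V)) = 0 := hY₃.iso a _ hw
      rw [h1, h3, h4, zero_add, zero_add] at h2
      rw [locB_bal, locB_symm]
      exact h2)
  have cZ : ∀ (Y : Submodule O (X → V)), (∀ x ∈ Y, Z1 T ρ x) →
      Nat.card (Y.comap (zM (O := O) T h.act h.lin).subtype) = Nat.card Y :=
    fun Y hc => Nat.card_congr ⟨fun x => ⟨x.1.1, x.2⟩, fun x => ⟨⟨x.1, hc _ x.2⟩, x.2⟩,
      fun x => rfl, fun x => rfl⟩
  have c2 := cZ Y₂ hY₂.coc
  have c12 : Nat.card ↥(Y₁.comap (zM (O := O) T h.act h.lin).subtype ⊓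
      Y₂.comap (zM (O := O) T h.act h.lin).subtype) = Nat.card ↥(Y₁ ⊓ Y₂) :=
    cZ (Y₁ ⊓ Y₂) fun x hx => hY₁.coc x hx.1
  have c23 : Nat.card ↥(Y₂.comap (zM (O := O) T h.act h.lin).subtype ⊓
      Y₃.comap (zM (O := O) T h.act h.lin).subtype) = Nat.card ↥(Y₂ ⊓ Y₃) :=
    cZ (Y₂ ⊓ Y₃) fun x hx => hY₂.coc x hx.1
  have c13 : Nat.card ↥(Y₁.comap (zM (O := O) T h.act h.lin).subtype ⊓
      Y₃.comap (zM (O := O) T h.act h.lin).subtype) = Nat.card ↥(Y₁ ⊓ Y₃) :=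
    cZ (Y₁ ⊓ Y₃) fun x hx => hY₁.coc x hx.1
  rw [c2, c12, c23, c13] at key
  have f1 := lag_fin h hf hY₁
  have e : dst Y₁ Y₂ * dst Y₂ Y₃ * dst Y₁ Y₃ =
      (Nat.card Y₂ * Nat.card ↥(Y₁ ⊓ Y₂) * Nat.card ↥(Y₂ ⊓ Y₃) * Nat.card ↥(Y₁ ⊓ Y₃)) *
        Nat.card Y₁ ^ 2 := by
    unfold dst
    ring
  rw [e]
  exact evPow_mul key (evPow_sq (card_pow (O := O) Y₁))

/-- Lagrangian conditions have the same number of elements -/
theorem lag_card [Finite V] (hL : LocH T χ iv) (h : QM T χ O ρ β l) (hl : LDual T iv ρ ρ (pB β))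
    {Y Y' : Submodule O (X → V)} (hY : Lag T iv ρ β l Y) (hY' : Lag T iv ρ β l Y') :
    Nat.card Y = Nat.card Y' :=
  Nat.mul_self_inj.1 ((QV.lag_sq hL h hl hY).trans (QV.lag_sq hL h hl hY').symm)

end trans

section ind

variable {X : Type*} [Group X] {T : FSys X} {O : Type*} [CommRing O] {V V₁ Vb : Type*}
  [AddCommGroup V] [Module O V] [AddCommGroup V₁] [Module O V₁] [AddCommGroup Vb] [Module O Vb]
  {σ : X → V → V} {σ₁ : X → V₁ → V₁} {i : V₁ →ₗ[O] V} {π : V₁ →ₗ[O] Vb}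
  {act : IsAct σ} {lin : ∀ g (a : O) m, σ g (a • m) = a • σ g m} {act₁ : IsAct σ₁}
  {lin₁ : ∀ g (a : O) m, σ₁ g (a • m) = a • σ₁ g m}

/-- the map `(x₁, m) ↦ i x₁ + d m` -/
def fI (i : V₁ →ₗ[O] V) (act : IsAct σ) (lin : ∀ g (a : O) m, σ g (a • m) = a • σ g m) :
    (X → V₁) × V →ₗ[O] (X → V) where
  toFun p := fun d => i (p.1 d) + d0 σ p.2 d
  map_add' p p' := by
    funext d
    simp only [Prod.fst_add, Prod.snd_add, Pi.add_apply, map_add, d0, act.add]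
    abel
  map_smul' a p := by
    funext d
    simp only [Prod.smul_fst, Prod.smul_snd, Pi.smul_apply, map_smul, d0, lin, smul_add, smul_sub,
      RingHom.id_apply]

/-- the map `(x₁, m) ↦ π x₁` -/
def gI (V : Type*) [AddCommGroup V] [Module O V] (π : V₁ →ₗ[O] Vb) :
    (X → V₁) × V →ₗ[O] (X → Vb) where
  toFun p := fun d => π (p.1 d)
  map_add' p p' := by
    funext d
    simp only [Prod.fst_add, Pi.add_apply, map_add]
  map_smul' a p := by
    funext d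
    simp only [Prod.smul_fst, Pi.smul_apply, map_smul, RingHom.id_apply]

/-- the pairs with `x₁` a cocycle and `π x₁` in `Y` -/
def mI (T : FSys X) (V : Type*) [AddCommGroup V] [Module O V] (π : V₁ →ₗ[O] Vb) (act₁ : IsAct σ₁)
    (lin₁ : ∀ g (a : O) m, σ₁ g (a • m) = a • σ₁ g m) (Y : Submodule O (X → Vb)) :
    Submodule O ((X → V₁) × V) :=
  (zM T act₁ lin₁).comap (LinearMap.fst O (X → V₁) V) ⊓ Y.comap (gI V π)

theorem mem_mI {Y : Submodule O (X → Vb)} {p : (X → V₁) × V} :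
    p ∈ mI T V π act₁ lin₁ Y ↔ Z1 T σ₁ p.1 ∧ (fun d => π (p.1 d)) ∈ Y := Iff.rfl

theorem map_fI {Y : Submodule O (X → Vb)} :
    (mI T V π act₁ lin₁ Y).map (fI i act lin) = indY T i π act lin act₁ lin₁ Y := by
  ext x
  constructor
  · rintro ⟨⟨x₁, m⟩, hp, rfl⟩
    exact ⟨x₁, m, hp.1, hp.2, fun d => rfl⟩
  · rintro ⟨x₁, m, h1, h2, h3⟩
    exact ⟨(x₁, m), ⟨h1, h2⟩, funext fun d => (h3 d).symm⟩

theorem map_gI {Y : Submodule O (X → Vb)}
    (hY : ∀ y ∈ Y, ∃ x₁, Z1 T σ₁ x₁ ∧ ∀ d, y d = π (x₁ d)) :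
    (mI T V π act₁ lin₁ Y).map (gI V π) = Y := by
  ext y
  constructor
  · rintro ⟨⟨x₁, m⟩, hp, rfl⟩
    exact hp.2
  · intro hy
    obtain ⟨x₁, h1, h2⟩ := hY y hy
    have h3 : (fun d => π (x₁ d)) = y := funext fun d => (h2 d).symm
    refine ⟨(x₁, 0), ⟨h1, ?_⟩, h3⟩
    show (fun d => π (x₁ d)) ∈ Y
    rw [h3]
    exact hy

variable (act lin act₁ lin₁) in
/-- the number of elements of an induced condition -/
theorem card_ind {Y Z : Submodule O (X → Vb)}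
    (hY : ∀ y ∈ Y, ∃ x₁, Z1 T σ₁ x₁ ∧ ∀ d, y d = π (x₁ d)) (hZ : Z ≤ Y)
    (hR : ∀ (x₁ : X → V₁) (m : V), Z1 T σ₁ x₁ → (∀ d, i (x₁ d) + d0 σ m d = 0) →
      (fun d => π (x₁ d)) ∈ Z) :
    Nat.card (indY T i π act lin act₁ lin₁ Z) *
        Nat.card ↥(mI T V π act₁ lin₁ Y ⊓ LinearMap.ker (fI i act lin)) =
      Nat.card Z * Nat.card ↥(mI T V π act₁ lin₁ Y ⊓ LinearMap.ker (gI V π)) := by
  have h1 := card_map (fI i act lin) (mI T V π act₁ lin₁ Z)
  have h2 := card_map (gI V π) (mI T V π act₁ lin₁ Z)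
  rw [map_fI] at h1
  rw [map_gI fun y hy => hY y (hZ hy)] at h2
  have e1 : mI T V π act₁ lin₁ Z ⊓ LinearMap.ker (fI i act lin) =
      mI T V π act₁ lin₁ Y ⊓ LinearMap.ker (fI i act lin) := by
    ext p
    constructor
    · rintro ⟨⟨h3, h4⟩, h5⟩
      exact ⟨⟨h3, hZ h4⟩, h5⟩
    · rintro ⟨⟨h3, h4⟩, h5⟩
      exact ⟨⟨h3, hR p.1 p.2 h3 fun d => congrFun h5 d⟩, h5⟩
  have e2 : mI T V π act₁ lin₁ Z ⊓ LinearMap.ker (gI V π) =
      mI T V π act₁ lin₁ Y ⊓ LinearMap.ker (gI V π) := by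
    ext p
    constructor
    · rintro ⟨⟨h3, h4⟩, h5⟩
      exact ⟨⟨h3, hZ h4⟩, h5⟩
    · rintro ⟨⟨h3, h4⟩, h5⟩
      refine ⟨⟨h3, ?_⟩, h5⟩
      have h6 : (fun d => π (p.1 d)) = 0 := h5
      show (fun d => π (p.1 d)) ∈ Z
      rw [h6]
      exact Z.zero_mem
  rw [e1] at h1
  rw [e2] at h2
  rw [mul_comm, ← h1, h2, mul_comm]

variable (act lin act₁ lin₁) in
/-- INDUCTION PRESERVES THE DISTANCE. -/
theorem ind_dst [IsLocalRing O] [Finite (IsLocalRing.ResidueField O)]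
    (hf : Finite (zM (O := O) T act₁ lin₁)) [Finite V] {Y Y' : Submodule O (X → Vb)}
    (hYf : Finite Y)
    (hY : redY T i π act₁ lin₁ (indY T i π act lin act₁ lin₁ Y) = Y)
    (hY' : redY T i π act₁ lin₁ (indY T i π act lin act₁ lin₁ Y') = Y') :
    EvPow (Nat.card (IsLocalRing.ResidueField O))
      (dst (indY T i π act lin act₁ lin₁ Y) (indY T i π act lin act₁ lin₁ Y') * dst Y Y') := by
  have lft : ∀ y ∈ Y, ∃ x₁, Z1 T σ₁ x₁ ∧ ∀ d, y d = π (x₁ d) := by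
    intro y hy
    rw [← hY] at hy
    obtain ⟨x₁, h1, -, h3⟩ := hy
    exact ⟨x₁, h1, h3⟩
  have hR : ∀ (Y : Submodule O (X → Vb)),
      redY T i π act₁ lin₁ (indY T i π act lin act₁ lin₁ Y) = Y → ∀ (x₁ : X → V₁) (m : V),
        Z1 T σ₁ x₁ → (∀ d, i (x₁ d) + d0 σ m d = 0) → (fun d => π (x₁ d)) ∈ Y := by
    intro Y hY x₁ m h1 h2
    rw [← hY]
    refine ⟨x₁, h1, ⟨0, -m, (zM T act₁ lin₁).zero_mem, ?_, fun d => ?_⟩, fun d => rfl⟩
    · have e : (fun d : X => π ((0 : X → V₁) d)) = 0 := by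
        funext d
        simp
      rw [e]
      exact Y.zero_mem
    · have h3 := h2 d
      show i (x₁ d) = i 0 + (σ d (-m) - -m)
      rw [map_zero, zero_add, act.neg, eq_neg_of_add_eq_zero_left h3]
      simp only [d0]
      abel
  have hinf : indY T i π act lin act₁ lin₁ Y ⊓ indY T i π act lin act₁ lin₁ Y' =
      indY T i π act lin act₁ lin₁ (Y ⊓ Y') := by
    apply le_antisymm
    · rintro x ⟨⟨x₁, m, h1, h2, h3⟩, ⟨x₂, m', k1, k2, k3⟩⟩
      have h4 : (fun d => π (x₁ d - x₂ d)) ∈ Y' := by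
        have hz : Z1 T σ₁ (x₁ - x₂) := (zM T act₁ lin₁).sub_mem h1 k1
        refine hR Y' hY' (x₁ - x₂) (m - m') hz fun d => ?_
        have h5 := (h3 d).symm.trans (k3 d)
        simp only [Pi.sub_apply, map_sub]
        have h6 : d0 σ (m - m') d = d0 σ m d - d0 σ m' d := by
          simp only [d0, act.sub]
          abel
        rw [h6]
        have h7 : i (x₁ d) - i (x₂ d) + (d0 σ m d - d0 σ m' d) =
          (i (x₁ d) + d0 σ m d) - (i (x₂ d) + d0 σ m' d) := by abel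
        rw [h7, h5, sub_self]
      refine ⟨x₁, m, h1, ⟨h2, ?_⟩, h3⟩
      have h5 : (fun d => π (x₁ d)) = (fun d => π (x₁ d - x₂ d)) + fun d => π (x₂ d) := by
        funext d
        simp
      rw [h5]
      exact Y'.add_mem h4 k2
    · rintro x ⟨x₁, m, h1, h2, h3⟩
      exact ⟨⟨x₁, m, h1, h2.1, h3⟩, ⟨x₁, m, h1, h2.2, h3⟩⟩
  have c1 := card_ind (V := V) act lin act₁ lin₁ (Z := Y) lft le_rfl (hR Y hY)
  have c2 := card_ind (V := V) act lin act₁ lin₁ (Z := Y ⊓ Y') lft inf_le_left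
    (fun x₁ m h1 h2 => ⟨hR Y hY x₁ m h1 h2, hR Y' hY' x₁ m h1 h2⟩)
  rw [← hinf] at c2
  -- finiteness
  have fM : Finite (mI T V π act₁ lin₁ Y) := by
    refine Finite.of_injective (fun p : mI T V π act₁ lin₁ Y =>
      ((⟨p.1.1, p.2.1⟩ : zM (O := O) T act₁ lin₁), p.1.2)) fun p q hpq => ?_
    have e1 := congrArg (fun z : zM (O := O) T act₁ lin₁ × V => z.1.1) hpq
    have e2 := congrArg (fun z : zM (O := O) T act₁ lin₁ × V => z.2) hpq
    exact Subtype.ext (Prod.ext e1 e2)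
  have fK : Finite ↥(mI T V π act₁ lin₁ Y ⊓ LinearMap.ker (fI i act lin)) :=
    Finite.of_injective (fun p : ↥(mI T V π act₁ lin₁ Y ⊓ LinearMap.ker (fI i act lin)) =>
      (⟨p.1, p.2.1⟩ : mI T V π act₁ lin₁ Y)) fun p q h => Subtype.ext (by simpa using h)
  have fB : Finite ↥(mI T V π act₁ lin₁ Y ⊓ LinearMap.ker (gI V π)) :=
    Finite.of_injective (fun p : ↥(mI T V π act₁ lin₁ Y ⊓ LinearMap.ker (gI V π)) =>
      (⟨p.1, p.2.1⟩ : mI T V π act₁ lin₁ Y)) fun p q h => Subtype.ext (by simpa using h)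
  have fI : Finite (indY T i π act lin act₁ lin₁ Y) := by
    rw [← map_fI (T := T) (i := i) (π := π) (act := act) (lin := lin) (act₁ := act₁) (lin₁ := lin₁)
      (Y := Y)]
    have := fM
    exact Finite.of_surjective
      (fun p : mI T V π act₁ lin₁ Y => (⟨_, Submodule.mem_map_of_mem p.2⟩ :
        (mI T V π act₁ lin₁ Y).map (OL.fI i act lin))) (by
        rintro ⟨y, ⟨p, hp, rfl⟩⟩
        exact ⟨⟨p, hp⟩, rfl⟩)
  have fI' : Finite ↥(indY T i π act lin act₁ lin₁ Y ⊓ indY T i π act lin act₁ lin₁ Y') :=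
    Finite.of_injective (fun p : ↥(indY T i π act lin act₁ lin₁ Y ⊓
      indY T i π act lin act₁ lin₁ Y') => (⟨p.1, p.2.1⟩ : indY T i π act lin act₁ lin₁ Y))
      fun p q h => Subtype.ext (by simpa using h)
  have fY' : Finite ↥(Y ⊓ Y') :=
    Finite.of_injective (fun p : ↥(Y ⊓ Y') => (⟨p.1, p.2.1⟩ : Y))
      fun p q h => Subtype.ext (by simpa using h)
  have pI := card_pow (O := O) (indY T i π act lin act₁ lin₁ Y)
  have pI' := card_pow (O := O) ↥(indY T i π act lin act₁ lin₁ Y ⊓ indY T i π act lin act₁ lin₁ Y')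
  have pY := card_pow (O := O) Y
  have pY' := card_pow (O := O) ↥(Y ⊓ Y')
  have pK := card_pow (O := O) ↥(mI T V π act₁ lin₁ Y ⊓ LinearMap.ker (OL.fI i act lin))
  have pB := card_pow (O := O) ↥(mI T V π act₁ lin₁ Y ⊓ LinearMap.ker (gI V π))
  unfold dst
  refine evPow_cancel q_two_le (isPow_mul (isPow_mul pI pI') (isPow_mul pY pY')) (evPow_sq pK) ?_
  have e : Nat.card (indY T i π act lin act₁ lin₁ Y) *
      Nat.card ↥(indY T i π act lin act₁ lin₁ Y ⊓ indY T i π act lin act₁ lin₁ Y') *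
      (Nat.card Y * Nat.card ↥(Y ⊓ Y')) *
      Nat.card ↥(mI T V π act₁ lin₁ Y ⊓ LinearMap.ker (OL.fI i act lin)) ^ 2 =
      (Nat.card Y * Nat.card ↥(Y ⊓ Y') *
        Nat.card ↥(mI T V π act₁ lin₁ Y ⊓ LinearMap.ker (gI V π))) ^ 2 := by
    calc _ = (Nat.card (indY T i π act lin act₁ lin₁ Y) *
          Nat.card ↥(mI T V π act₁ lin₁ Y ⊓ LinearMap.ker (OL.fI i act lin))) *
        (Nat.card ↥(indY T i π act lin act₁ lin₁ Y ⊓ indY T i π act lin act₁ lin₁ Y') *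
          Nat.card ↥(mI T V π act₁ lin₁ Y ⊓ LinearMap.ker (OL.fI i act lin))) *
        (Nat.card Y * Nat.card ↥(Y ⊓ Y')) := by ring
      _ = _ := by rw [c1, c2]; ring
  rw [e]
  exact evPow_sq (isPow_mul (isPow_mul pY pY') pB)

end ind

end Pool.Agent.Work.MP_787500_nt.OL
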