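import Mathlib
import Pool.Agent.Work.MP_787500_nt.OL.Lag3
import Pool.Agent.Work.MP_787500_nt.QV.NumN
import Pool.Agent.Work.MP_787500_nt.QV.FlN
import Pool.Agent.Work.MP_787500_nt.QV.LagN

/-!
# From the level `N` to the level `N + 2`

`dst_step`: the distance of the reductions of two Lagrangian subspaces `L`, `L'` at the level `N + 2` is congruent
modulo 2 to the distance at the level `N`.
-/

set_option autoImplicit false
set_option linter.unusedSectionVars false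

namespace Pool.Agent.Work.MP_787500_nt.OL

open Matrix
open Pool.Agent.Work.MP_787500_nt.GP (A0 IsAct d0 d1 d2 tw cup11 cup21 cup12 cup01 cup02 EvPow IsPow OE MN
  actN actQ bN bil mq lft mq_lft mq_eq mq_add mq_smul Wq Lat pr0 lamN mem_OE card_pow isPow_mul
  evPow_cancel evPow_sq evPow_mul q_two_le)
open Pool.Agent.Work.MP_787500_nt.KR (FSys Sm1 Sm2 IsChar Smooth Z1 Z2 B2 LocH LocD Pair LDual GlobH Mid Sha2
  IsTr zM z1s b1s h1 LocRep ZV PerpV zV mnI mnP)
open Pool.Agent.Work.MP_787500_nt.QS (QM Lag selQ HQ Flag pB Zq indY redY ind_lag)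
open Pool.Agent.Work.MP_787500_nt.QV (QRep LagV beN laN qm_N flag_N lag_N num_N lag_t lag_sq)
open Pool.Agent.Work.MP_787500_nt.PA (toE)

universe v

section pow

theorem ev_iff {q k : ℕ} (hq : 2 ≤ q) : EvPow q (q ^ k) ↔ Even k := by
  constructor
  · rintro ⟨m, hm⟩
    have := Nat.pow_right_injective hq hm
    exact ⟨m, by omega⟩
  · rintro ⟨m, rfl⟩
    exact ⟨m, by congr 1; ring⟩

theorem dst_pow {O : Type*} [CommRing O] [IsLocalRing O] [Finite (IsLocalRing.ResidueField O)]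
    {A : Type*} [AddCommGroup A] [Module O A] (X Y : Submodule O A) (hf : Finite X) :
    IsPow (Nat.card (IsLocalRing.ResidueField O)) (dst X Y) := by
  have h1 : Finite ↥(X ⊓ Y) := Finite.of_injective (fun p : ↥(X ⊓ Y) => (⟨p.1, p.2.1⟩ : X))
      fun p q h => Subtype.ext (by simpa using h)
  exact isPow_mul (card_pow (O := O) X) (card_pow (O := O) ↥(X ⊓ Y))

theorem dst_comm {O : Type*} [CommRing O] {A : Type*} [AddCommGroup A] [Module O A]
    {X Y : Submodule O A} (h : Nat.card X = Nat.card Y) : dst X Y = dst Y X := by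
  unfold dst
  rw [h, inf_comm]

end pow

section

variable {E : Type v} [NormedField E] [NormedAlgebra ℚ_[2] E] [FiniteDimensional ℚ_[2] E] {n : ℕ}
  {Γ : Type*} [Group Γ] {S : FSys Γ} {χ : Γ → ℤ_[2]} {l : OE E} {t : E →ₗ[ℚ_[2]] ℚ_[2]}
  {T : Submodule (OE E) (Fin n → E)} {β Sm J : Matrix (Fin n) (Fin n) E}
  {ρ : Γ → Matrix (Fin n) (Fin n) E}

variable {P : Type*} [Group P] {TP : FSys P} {jp : P →* Γ} {iv : (P → P → A0) → A0}

theorem rep_jp (h : QRep S χ l t T β Sm J ρ)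
    (hj : ∀ W, S.mem W → ∃ W', TP.mem W' ∧ ∀ w ∈ W', jp w ∈ W) :
    LocRep TP (fun d => χ (jp d)) T Sm (fun d => ρ (jp d)) (fun d => J * ρ (jp d) * J) where
  one := by
    rw [map_one]
    exact h.rep.one
  mul s u := by
    rw [map_mul]
    exact h.rep.mul _ _
  one' := by
    have h1 := h.rep.one'
    rw [map_one]
    exact h1
  mul' s u := by
    have h1 := h.rep.mul' (jp s) (jp u)
    rw [map_mul]
    exact h1
  st d := h.rep.st _
  st' d := h.rep.st' _
  sm ε hε := by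
    obtain ⟨W, hW, h1⟩ := h.rep.sm ε hε
    obtain ⟨W', hW', h2⟩ := hj W hW
    exact ⟨W', hW', fun v hv x => h1 _ (h2 v hv) x⟩
  sm' ε hε := by
    obtain ⟨W, hW, h1⟩ := h.rep.sm' ε hε
    obtain ⟨W', hW', h2⟩ := hj W hW
    exact ⟨W', hW', fun v hv x => h1 _ (h2 v hv) x⟩
  dual d x y := h.rep.dual _ x y

theorem red_ind (h : QRep S χ l t T β Sm J ρ) (hχ : IsChar S χ)
    (hj : ∀ W, S.mem W → ∃ W', TP.mem W' ∧ ∀ w ∈ W', jp w ∈ W)
    {L : Submodule E (P → Fin n → E)}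
    (hcoc : ∀ X ∈ L, ZV TP (fun d => ρ (jp d)) X) (hcob : ∀ v, (fun d => ρ (jp d) *ᵥ v - v) ∈ L)
    (N : ℕ) :
    redY TP (mnI T l (Nat.le_succ (N + 1))) (mnP T l 1 (le_refl (N + 1)))
      ((qm_N h hχ (N + 1)).act.comp jp) (fun d => (qm_N h hχ (N + 1)).lin (jp d))
      (indY TP (mnI T l (Nat.le_succ (N + 1))) (mnP T l 1 (le_refl (N + 1)))
        ((qm_N h hχ (N + 2)).act.comp jp) (fun d => (qm_N h hχ (N + 2)).lin (jp d))
        ((qm_N h hχ (N + 1)).act.comp jp) (fun d => (qm_N h hχ (N + 1)).lin (jp d))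
        (lamN T l N L)) = lamN T l N L := by
  apply le_antisymm
  · rintro y ⟨x₁, hx₁, ⟨x₁', m, hx₁', ⟨X', hX', h1⟩, h2⟩, h3⟩
    refine ⟨X' + (l : E) • (fun d => ρ (jp d) *ᵥ lft (m : Wq T) - lft (m : Wq T)),
      L.add_mem hX' (L.smul_mem _ (hcob _)), fun d => ?_⟩
    have e1 : (y d : Wq T) = l ^ 1 • (x₁ d : Wq T) := by
      rw [h3 d]
      rfl
    have e2 : (x₁ d : Wq T) = (x₁' d : Wq T) +
        mq T (ρ (jp d) *ᵥ lft (m : Wq T) - lft (m : Wq T)) := by
      have e3 := congrArg (fun z : MN T l (N + 2) => (z : Wq T)) (h2 d)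
      have e4 : (x₁ d : Wq T) = (x₁' d : Wq T) + (actQ T (ρ (jp d)) (m : Wq T) - (m : Wq T)) := e3
      rw [e4, GP.mq_sub, mq_lft]
      rfl
    have e5 : l ^ 1 • (x₁' d : Wq T) = mq T (X' d) := h1 d
    rw [e1, e2, smul_add, e5, pow_one, ← mq_smul, ← mq_add]
    rfl
  · rintro y ⟨X', hX', h1⟩
    have hl : (l : E) ≠ 0 := h.lat.lne
    have hmem : ∀ d, mq T ((l : E)⁻¹ • X' d) ∈ Submodule.torsionBy (OE E) (Wq T) (l ^ (N + 1)) := by
      intro d
      rw [Submodule.mem_torsionBy_iff, ← mq_smul]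
      have h4 : l ^ N • (y d : Wq T) = 0 := (y d).mem
      rw [h1 d, ← mq_smul] at h4
      rw [← h4]
      congr 1
      rw [smul_smul, SubmonoidClass.coe_pow, SubmonoidClass.coe_pow, pow_succ, mul_assoc,
        mul_inv_cancel₀ hl, mul_one]
    let x₁ : P → MN T l (N + 1) := fun d => ⟨mq T ((l : E)⁻¹ • X' d), hmem d⟩
    have hZ : Z1 TP (fun d => actN l (N + 1) ρ h.rep.st (jp d)) x₁ :=
      KR.zv_level h.lat (rep_jp h hj) (N + 1) (hcoc _ (L.smul_mem (l : E)⁻¹ hX')) (fun d => rfl)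
    have hπ : ∀ d, mnP T l 1 (le_refl (N + 1)) (x₁ d) = y d := by
      intro d
      apply Subtype.ext
      show l ^ 1 • mq T ((l : E)⁻¹ • X' d) = (y d : Wq T)
      rw [pow_one, ← mq_smul, smul_smul, mul_inv_cancel₀ hl, one_smul, h1 d]
    refine ⟨x₁, hZ, ⟨x₁, 0, hZ, ?_, fun d => ?_⟩, fun d => (hπ d).symm⟩
    · refine ⟨X', hX', fun d => ?_⟩
      show (mnP T l 1 (le_refl (N + 1)) (x₁ d) : Wq T) = _
      rw [hπ d]
      exact h1 d
    · have e : d0 (fun d => actN l (N + 2) ρ h.rep.st (jp d)) (0 : MN T l (N + 2)) d = 0 := by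
        show actN l (N + 2) ρ h.rep.st (jp d) 0 - 0 = 0
        rw [(qm_N h hχ (N + 2)).act.zero, sub_zero]
      rw [e, add_zero]

/-- THE STEP. -/
theorem dst_step [IsLocalRing (OE E)] (H : LocD.{v} TP (fun d => χ (jp d)) iv)
    (h : QRep S χ l t T β Sm J ρ) (hχ : IsChar S χ)
    (hj : ∀ W, S.mem W → ∃ W', TP.mem W' ∧ ∀ w ∈ W', jp w ∈ W)
    {L L' : Submodule E (P → Fin n → E)} [FiniteDimensional E L] [FiniteDimensional E L']
    (hL : LagV TP (fun d => χ (jp d)) Sm J (fun d => ρ (jp d)) L)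
    (hL' : LagV TP (fun d => χ (jp d)) Sm J (fun d => ρ (jp d)) L') (N : ℕ) :
    EvPow (Nat.card (IsLocalRing.ResidueField (OE E)))
      (dst (lamN T l (N + 2) L) (lamN T l (N + 2) L') * dst (lamN T l N L) (lamN T l N L')) := by
  classical
  have hres : Finite (IsLocalRing.ResidueField (OE E)) := GP.res_finite
  have hfM : ∀ N, Finite (MN T l N) := fun N => GP.MN_finite h.lat N
  have hq := fun N => (qm_N h hχ N).comp hj
  have hld := fun N => H.ld (hq N).pair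
  have hlag := fun N => lag_N H h hχ hj hL N
  have hlag' := fun N => lag_N H h hχ hj hL' N
  have hfin : ∀ N, Finite (zM (O := OE E) TP (hq N).act (hq N).lin) := fun N => (hld N).fin
  have hR := red_ind h hχ hj hL.coc hL.cob N
  have hR' := red_ind h hχ hj hL'.coc hL'.cob N
  have d3 := ind_dst (T := TP) (V := MN T l (N + 2)) (i := mnI T l (Nat.le_succ (N + 1)))
    (π := mnP T l 1 (le_refl (N + 1))) ((qm_N h hχ (N + 2)).act.comp jp)
    (fun d => (qm_N h hχ (N + 2)).lin (jp d)) ((qm_N h hχ (N + 1)).act.comp jp)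
    (fun d => (qm_N h hχ (N + 1)).lin (jp d)) (hfin (N + 1)) (lag_fin (hq N) (hfin N) (hlag N))
    hR hR'
  obtain ⟨t₀, ht1, ht2, ht3⟩ := lag_t H.toLocH (hq 1) (hld 1) (hlag 1)
  have hc1 := lag_card H.toLocH (hq 1) (hld 1) (hlag 1) (hlag' 1)
  have n1 := num_N h hχ hj hL.coc hL.cob N (t₀ := t₀) (by rw [mul_comm]; exact ht2.symm)
  have n2 := num_N h hχ hj hL'.coc hL'.cob N (t₀ := t₀) (by
    rw [mul_comm, ← hc1]; exact ht2.symm)
  rw [hR, inf_idem] at n1
  rw [hR', inf_idem] at n2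
  have hI : Lag TP iv (fun d => actN l (N + 2) ρ h.rep.st (jp d)) (beN h (N + 2))
      (fun a d => laN χ l t β ρ T (N + 2) a (jp d))
      (indY TP (mnI T l (Nat.le_succ (N + 1))) (mnP T l 1 (le_refl (N + 1)))
        ((qm_N h hχ (N + 2)).act.comp jp) (fun d => (qm_N h hχ (N + 2)).lin (jp d))
        ((qm_N h hχ (N + 1)).act.comp jp) (fun d => (qm_N h hχ (N + 1)).lin (jp d))
        (lamN T l N L)) :=
    ind_lag H.toLocH (hq (N + 2)) (hq N) ((flag_N h N).comp jp) (hld 1) (hld (N + 1)) (hld N) (hlag N)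
  have hI' : Lag TP iv (fun d => actN l (N + 2) ρ h.rep.st (jp d)) (beN h (N + 2))
      (fun a d => laN χ l t β ρ T (N + 2) a (jp d))
      (indY TP (mnI T l (Nat.le_succ (N + 1))) (mnP T l 1 (le_refl (N + 1)))
        ((qm_N h hχ (N + 2)).act.comp jp) (fun d => (qm_N h hχ (N + 2)).lin (jp d))
        ((qm_N h hχ (N + 1)).act.comp jp) (fun d => (qm_N h hχ (N + 1)).lin (jp d))
        (lamN T l N L')) :=
    ind_lag H.toLocH (hq (N + 2)) (hq N) ((flag_N h N).comp jp) (hld 1) (hld (N + 1)) (hld N)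
      (hlag' N)
  clear hR hR'
  generalize indY TP (mnI T l (Nat.le_succ (N + 1))) (mnP T l 1 (le_refl (N + 1)))
        ((qm_N h hχ (N + 2)).act.comp jp) (fun d => (qm_N h hχ (N + 2)).lin (jp d))
        ((qm_N h hχ (N + 1)).act.comp jp) (fun d => (qm_N h hχ (N + 1)).lin (jp d))
        (lamN T l N L) = B at d3 n1 hI
  generalize indY TP (mnI T l (Nat.le_succ (N + 1))) (mnP T l 1 (le_refl (N + 1)))
        ((qm_N h hχ (N + 2)).act.comp jp) (fun d => (qm_N h hχ (N + 2)).lin (jp d))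
        ((qm_N h hχ (N + 1)).act.comp jp) (fun d => (qm_N h hχ (N + 1)).lin (jp d))
        (lamN T l N L') = B' at d3 n2 hI'
  have d1 := dst_trans H.toLocH (hq (N + 2)) (hfin (N + 2)) (hlag (N + 2)) hI hI'
  have d2 := dst_trans H.toLocH (hq (N + 2)) (hfin (N + 2)) (hlag (N + 2)) (hlag' (N + 2)) hI'
  have fA := lag_fin (hq (N + 2)) (hfin (N + 2)) (hlag (N + 2))
  have fA' := lag_fin (hq (N + 2)) (hfin (N + 2)) (hlag' (N + 2))
  have fB := lag_fin (hq (N + 2)) (hfin (N + 2)) hI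
  have fY := lag_fin (hq N) (hfin N) (hlag N)
  have fY' := lag_fin (hq N) (hfin N) (hlag' N)
  have q2 : 2 ≤ Nat.card (IsLocalRing.ResidueField (OE E)) := q_two_le
  obtain ⟨y, hy⟩ := card_pow (O := OE E) (lamN T l N L)
  obtain ⟨y', hy'⟩ := card_pow (O := OE E) (lamN T l N L')
  obtain ⟨a, ha⟩ := dst_pow (lamN T l (N + 2) L) (lamN T l (N + 2) L') fA
  obtain ⟨f, hf⟩ := dst_pow (lamN T l N L) (lamN T l N L') fY
  obtain ⟨b, hb⟩ := dst_pow (lamN T l (N + 2) L) B fA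
  obtain ⟨c, hc⟩ := dst_pow B B' fB
  obtain ⟨d, hd⟩ := dst_pow (lamN T l (N + 2) L) B' fA
  obtain ⟨e, he⟩ := dst_pow (lamN T l (N + 2) L') B' fA'
  obtain ⟨u, hu⟩ := ht3
  have m1 : Nat.card ↥(lamN T l (N + 2) L ⊓ B) * Nat.card (lamN T l (N + 2) L) *
      (Nat.card (lamN T l N L) * Nat.card (lamN T l N L)) * t₀ =
      dst (lamN T l (N + 2) L) B * (Nat.card (lamN T l N L) * Nat.card (lamN T l N L)) * t₀ := by
    unfold dst
    ring
  have m2 : Nat.card ↥(lamN T l (N + 2) L' ⊓ B') * Nat.card (lamN T l (N + 2) L') *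
      (Nat.card (lamN T l N L') * Nat.card (lamN T l N L')) * t₀ =
      dst (lamN T l (N + 2) L') B' * (Nat.card (lamN T l N L') * Nat.card (lamN T l N L')) * t₀ := by
    unfold dst
    ring
  rw [m1, hb, hy, hu, ← pow_add, ← pow_add, ← pow_add, ev_iff q2] at n1
  rw [m2, he, hy', hu, ← pow_add, ← pow_add, ← pow_add, ev_iff q2] at n2
  rw [hb, hc, hd, ← pow_add, ← pow_add, ev_iff q2] at d1
  rw [ha, he, hd, ← pow_add, ← pow_add, ev_iff q2] at d2
  rw [hc, hf, ← pow_add, ev_iff q2] at d3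
  rw [ha, hf, ← pow_add, ev_iff q2]
  rw [Nat.even_iff] at *
  omega

end

end Pool.Agent.Work.MP_787500_nt.OL
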