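import Mathlib
import Pool.Agent.Work.MP_787500_nt.GP.L13_CardN
import Pool.Agent.Work.MP_787500_nt.GP.L03_Ring

/-!
# The intersection of the reductions of two subspaces

`card_inf`: for large `N` the number of elements of `lamN T l N L ⊓ lamN T l N L'` is a constant times
`q ^ (N * finrank (L ⊓ L'))`.
-/

set_option autoImplicit false
set_option linter.unusedSectionVars false

namespace Pool.Agent.Work.MP_787500_nt.OL

open Matrix
open Pool.Agent.Work.MP_787500_nt.GP (OE MN mq lft mq_lft mq_eq mq_add mq_smul mq_sub mq_eq_zero Wq Lat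
  lamN mem_OE isPID card_lamN)

variable {E : Type*} [NormedField E] [NormedAlgebra ℚ_[2] E] [FiniteDimensional ℚ_[2] E] {n : ℕ}
  {b : Matrix (Fin n) (Fin n) E} {l : OE E} {t : E →ₗ[ℚ_[2]] ℚ_[2]}
  {T : Submodule (OE E) (Fin n → E)}

variable {D : Type*} [Group D]

/-- every functional on `L` is bounded on the members with values in `T` -/
theorem lm_bdd (h : Lat b l t T) (L : Submodule E (D → Fin n → E)) [FiniteDimensional E L]
    (f : Module.Dual E L) : ∃ C : ℝ, ∀ X : L, (∀ d, X.1 d ∈ T) → ‖f X‖ ≤ C := by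
  let ev : D × Fin n → Module.Dual E L := fun p =>
    (LinearMap.proj (R := E) (φ := fun _ : Fin n => E) p.2 ∘ₗ
      LinearMap.proj (R := E) (φ := fun _ : D => Fin n → E) p.1) ∘ₗ L.subtype
  have hev : ∀ d i (X : L), ev (d, i) X = X.1 d i := fun _ _ _ => rfl
  let W : Submodule E (Module.Dual E L) := Submodule.span E (Set.range ev)
  have hW : W = ⊤ := by
    have h1 : W.dualCoannihilator = ⊥ := by
      rw [eq_bot_iff]
      intro X hX
      rw [Submodule.mem_dualCoannihilator] at hX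
      rw [Submodule.mem_bot]
      refine Subtype.ext (funext fun d => funext fun i => ?_)
      exact hX (ev (d, i)) (Submodule.subset_span ⟨(d, i), rfl⟩)
    have h2 := Subspace.finrank_add_finrank_dualCoannihilator_eq W
    rw [h1, finrank_bot, add_zero, ← Subspace.dual_finrank_eq] at h2
    exact Submodule.eq_top_of_finrank_eq h2
  have hf : f ∈ W := by
    rw [hW]
    trivial
  obtain ⟨R, hR⟩ := h.bdd
  induction hf using Submodule.span_induction with
  | mem x hx =>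
    obtain ⟨⟨d, i⟩, rfl⟩ := hx
    exact ⟨R, fun X hX => (norm_le_pi_norm (X.1 d) i).trans (hR _ (hX d))⟩
  | zero => exact ⟨0, fun X _ => by simp⟩
  | add x y _ _ hx hy =>
    obtain ⟨C, hC⟩ := hx
    obtain ⟨C', hC'⟩ := hy
    exact ⟨C + C', fun X hX => (norm_add_le _ _).trans (add_le_add (hC X hX) (hC' X hX))⟩
  | smul a x _ hx =>
    obtain ⟨C, hC⟩ := hx
    refine ⟨‖a‖ * C, fun X hX => ?_⟩
    rw [LinearMap.smul_apply, smul_eq_mul, norm_mul]
    exact mul_le_mul_of_nonneg_left (hC X hX) (norm_nonneg _)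

/-- a power of `l` makes a bounded quantity small -/
theorem lm_pow (h : Lat b l t T) (C ε : ℝ) (hε : 0 < ε) :
    ∃ k : ℕ, ‖(l : E)‖ ^ k * C < ε := by
  have h1 : Filter.Tendsto (fun k : ℕ => ‖(l : E)‖ ^ k * C) Filter.atTop (nhds (0 * C)) :=
    (tendsto_pow_atTop_nhds_zero_of_lt_one (norm_nonneg _) h.llt).mul_const C
  rw [zero_mul] at h1
  exact (h1.eventually (gt_mem_nhds hε)).exists

/-- the members of `L` with values in `T` -/
def lm_L0 (T : Submodule (OE E) (Fin n → E)) (L : Submodule E (D → Fin n → E)) :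
    Submodule (OE E) (D → Fin n → E) where
  carrier := {X | X ∈ L ∧ ∀ d, X d ∈ T}
  add_mem' := by
    rintro X Y ⟨h1, h2⟩ ⟨k1, k2⟩
    exact ⟨L.add_mem h1 k1, fun d => T.add_mem (h2 d) (k2 d)⟩
  zero_mem' := ⟨L.zero_mem, fun _ => T.zero_mem⟩
  smul_mem' := by
    rintro a X ⟨h1, h2⟩
    exact ⟨L.smul_mem (a : E) h1, fun d => T.smul_mem a (h2 d)⟩

theorem lm_mem (L : Submodule E (D → Fin n → E)) (X : D → Fin n → E) :
    X ∈ lm_L0 T L ↔ X ∈ L ∧ ∀ d, X d ∈ T := Iff.rfl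

/-- `L₀` has a basis -/
theorem lm_basis (h : Lat b l t T) (L : Submodule E (D → Fin n → E))
    [FiniteDimensional E L] : ∃ m : ℕ, Nonempty (Module.Basis (Fin m) (OE E) (lm_L0 T L)) := by
  have hpid : IsPrincipalIdealRing (OE E) := isPID h.lne h.llt h.lmax
  let e := Module.finBasis E L
  choose C hC using fun i => lm_bdd h L (e.coord i)
  obtain ⟨k, hk⟩ := lm_pow h (∑ i, |C i|) 1 one_pos
  have hle : ∀ i, ∀ X : lm_L0 T L, ‖(l : E) ^ k * e.coord i ⟨X.1, X.2.1⟩‖ ≤ 1 := by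
    intro i X
    rw [norm_mul, norm_pow]
    refine le_trans ?_ hk.le
    refine mul_le_mul_of_nonneg_left ((hC i _ X.2.2).trans ?_) (by positivity)
    exact (le_abs_self _).trans
      (Finset.single_le_sum (f := fun i => |C i|) (fun _ _ => abs_nonneg _) (Finset.mem_univ i))
  let Φ : lm_L0 T L →ₗ[OE E] (Fin (Module.finrank E L) → OE E) :=
    { toFun := fun X i => ⟨(l : E) ^ k * e.coord i ⟨X.1, X.2.1⟩, hle i X⟩
      map_add' := by
        intro X Y
        funext i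
        apply Subtype.ext
        show (l : E) ^ k * e.coord i (⟨X.1, X.2.1⟩ + ⟨Y.1, Y.2.1⟩) =
          (l : E) ^ k * e.coord i ⟨X.1, X.2.1⟩ + (l : E) ^ k * e.coord i ⟨Y.1, Y.2.1⟩
        rw [map_add, mul_add]
      map_smul' := by
        intro a X
        funext i
        apply Subtype.ext
        show (l : E) ^ k * e.coord i ((a : E) • ⟨X.1, X.2.1⟩) =
          (a : E) * ((l : E) ^ k * e.coord i ⟨X.1, X.2.1⟩)
        rw [map_smul, smul_eq_mul]
        ring }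
  have hΦ : Function.Injective Φ := by
    rw [injective_iff_map_eq_zero]
    intro X hX
    have h1 : (⟨X.1, X.2.1⟩ : L) = 0 := by
      apply e.ext_elem
      intro i
      have h2 : (l : E) ^ k * e.coord i ⟨X.1, X.2.1⟩ = 0 :=
        congrArg Subtype.val (congrFun hX i)
      have h3 := (mul_eq_zero.1 h2).resolve_left (pow_ne_zero _ h.lne)
      rw [map_zero]
      exact h3
    exact Subtype.ext (congrArg (fun Z : L => Z.1) h1)
  obtain ⟨m, ⟨β⟩⟩ := Submodule.nonempty_basis_of_pid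
    (Pi.basisFun (OE E) (Fin (Module.finrank E L))) (LinearMap.range Φ)
  exact ⟨m, ⟨β.map (LinearEquiv.ofInjective Φ hΦ).symm⟩⟩

/-- some multiple of a bounded function has values in `T` -/
theorem lm_scale (h : Lat b l t T) {X : D → Fin n → E} {C : ℝ} (hX : ∀ d, ‖X d‖ ≤ C) :
    ∃ k : ℕ, ∀ d, (l : E) ^ k • X d ∈ T := by
  obtain ⟨r, hr, hT⟩ := h.opn
  obtain ⟨k, hk⟩ := lm_pow h C r hr
  refine ⟨k, fun d => hT _ ?_⟩
  rw [norm_smul, norm_pow]
  exact (mul_le_mul_of_nonneg_left (hX d) (by positivity)).trans_lt hk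

/-- the common reductions, as functions with values in `Wq T` -/
def cA (T : Submodule (OE E) (Fin n → E)) (L L' : Submodule E (D → Fin n → E)) :
    Submodule (OE E) (D → Wq T) where
  carrier := {x | (∃ X ∈ L, ∀ d, x d = mq T (X d)) ∧ ∃ X ∈ L', ∀ d, x d = mq T (X d)}
  add_mem' := by
    rintro x y ⟨⟨X, hX, h1⟩, ⟨X', hX', h1'⟩⟩ ⟨⟨Y, hY, h2⟩, ⟨Y', hY', h2'⟩⟩
    refine ⟨⟨X + Y, L.add_mem hX hY, fun d => ?_⟩, ⟨X' + Y', L'.add_mem hX' hY', fun d => ?_⟩⟩
    · rw [Pi.add_apply, Pi.add_apply, mq_add, h1, h2]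
    · rw [Pi.add_apply, Pi.add_apply, mq_add, h1', h2']
  zero_mem' := ⟨⟨0, L.zero_mem, fun d => (mq_eq_zero.2 T.zero_mem).symm⟩,
    ⟨0, L'.zero_mem, fun d => (mq_eq_zero.2 T.zero_mem).symm⟩⟩
  smul_mem' := by
    rintro a x ⟨⟨X, hX, h1⟩, ⟨X', hX', h1'⟩⟩
    refine ⟨⟨(a : E) • X, L.smul_mem _ hX, fun d => ?_⟩, ⟨(a : E) • X', L'.smul_mem _ hX', fun d => ?_⟩⟩
    · rw [Pi.smul_apply, Pi.smul_apply, mq_smul, h1]
    · rw [Pi.smul_apply, Pi.smul_apply, mq_smul, h1']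

theorem mem_cA {L L' : Submodule E (D → Fin n → E)} {x : D → Wq T} :
    x ∈ cA T L L' ↔ (∃ X ∈ L, ∀ d, x d = mq T (X d)) ∧ ∃ X ∈ L', ∀ d, x d = mq T (X d) := Iff.rfl

/-- the functions killed by `l ^ N` -/
def tN (T : Submodule (OE E) (Fin n → E)) (l : OE E) (N : ℕ) (D : Type*) :
    Submodule (OE E) (D → Wq T) where
  carrier := {x | ∀ d, l ^ N • x d = 0}
  add_mem' := fun {x y} hx hy d => by rw [Pi.add_apply, smul_add, hx d, hy d, add_zero]
  zero_mem' := fun d => smul_zero _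
  smul_mem' := fun a x hx d => by rw [Pi.smul_apply, smul_comm, hx d, smul_zero]

theorem card_cA (N : ℕ) (L L' : Submodule E (D → Fin n → E)) :
    Nat.card ↥(lamN T l N L ⊓ lamN T l N L') = Nat.card ↥(cA T L L' ⊓ tN T l N D) := by
  refine Nat.card_congr ⟨fun x => ⟨fun d => (x.1 d : Wq T), ⟨x.2.1, x.2.2⟩, fun d => (x.1 d).mem⟩,
    fun x => ⟨fun d => ⟨x.1 d, (Submodule.mem_torsionBy_iff _ _).2 (x.2.2 d)⟩, x.2.1.1, x.2.1.2⟩,
    fun x => rfl, fun x => rfl⟩

/-- the common reductions are, up to bounded torsion, the reductions of the common elements -/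
theorem exists_tor (h : Lat b l t T) (L L' : Submodule E (D → Fin n → E)) [FiniteDimensional E L]
    [FiniteDimensional E L'] (hb : ∀ X ∈ L, ∃ C : ℝ, ∀ d, ‖X d‖ ≤ C) :
    ∃ N₀ : ℕ, ∀ x ∈ cA T L L', ∃ y ∈ cA T (L ⊓ L') (L ⊓ L'), x - y ∈ tN T l N₀ D := by
  classical
  have hfd : FiniteDimensional E ↥(L ⊔ L') := Submodule.finiteDimensional_sup L L'
  obtain ⟨m, ⟨β⟩⟩ := lm_basis h (L ⊔ L')
  have h1 : ∀ i, ∃ X : D → Fin n → E, X ∈ L ∧ ∃ X' : D → Fin n → E, X' ∈ L' ∧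
      (β i : D → Fin n → E) = X - X' := by
    intro i
    obtain ⟨X, hX, X', hX', h2⟩ := Submodule.mem_sup.1 (β i).2.1
    exact ⟨X, hX, -X', L'.neg_mem hX', by rw [sub_neg_eq_add, h2]⟩
  choose X hX X' hX' hβ using h1
  choose C hC using fun i => hb (X i) (hX i)
  choose k hk using fun i => lm_scale h (hC i)
  refine ⟨∑ i, k i, ?_⟩
  rintro x ⟨⟨Z, hZ, e1⟩, ⟨Z', hZ', e2⟩⟩
  have hm : Z - Z' ∈ lm_L0 T (L ⊔ L') := by
    refine ⟨Submodule.sub_mem _ (Submodule.mem_sup_left hZ) (Submodule.mem_sup_right hZ'),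
      fun d => ?_⟩
    rw [Pi.sub_apply, ← mq_eq, ← e1, ← e2]
  have hs := β.sum_repr ⟨Z - Z', hm⟩
  have hs' : ∑ i, ((β.repr ⟨Z - Z', hm⟩ i : OE E) : E) • (X i - X' i) = Z - Z' := by
    have h3 := congrArg (fun w : lm_L0 T (L ⊔ L') => (w : D → Fin n → E)) hs
    simp only [Submodule.coe_sum, Submodule.coe_smul] at h3
    refine Eq.trans (Finset.sum_congr rfl fun i _ => ?_) h3
    rw [hβ]
    rfl
  set a : Fin m → OE E := fun i => β.repr ⟨Z - Z', hm⟩ i with ha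
  set W : D → Fin n → E := Z - ∑ i, ((a i : OE E) : E) • X i with hW
  have hW' : W = Z' - ∑ i, ((a i : OE E) : E) • X' i := by
    rw [hW, sub_eq_sub_iff_sub_eq_sub, ← hs', ← Finset.sum_sub_distrib]
    exact Finset.sum_congr rfl fun i _ => by rw [smul_sub]
  have hW1 : W ∈ L := L.sub_mem hZ (L.sum_mem fun i _ => L.smul_mem _ (hX i))
  have hW2 : W ∈ L' := by
    rw [hW']
    exact L'.sub_mem hZ' (L'.sum_mem fun i _ => L'.smul_mem _ (hX' i))
  refine ⟨fun d => mq T (W d), ⟨⟨W, ⟨hW1, hW2⟩, fun d => rfl⟩, ⟨W, ⟨hW1, hW2⟩, fun d => rfl⟩⟩,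
    fun d => ?_⟩
  rw [Pi.sub_apply, e1, ← mq_sub, ← mq_smul, mq_eq_zero, hW]
  have e3 : Z d - (Z - ∑ i, ((a i : OE E) : E) • X i) d = ∑ i, ((a i : OE E) : E) • X i d := by
    rw [Pi.sub_apply, sub_sub_cancel, Finset.sum_apply]
    rfl
  rw [e3, Finset.smul_sum]
  refine T.sum_mem fun i _ => ?_
  rw [smul_comm]
  refine T.smul_mem (a i) ?_
  have h4 : ∑ i, k i = (∑ i, k i - k i) + k i :=
    (Nat.sub_add_cancel (Finset.single_le_sum (fun _ _ => Nat.zero_le _) (Finset.mem_univ i))).symm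
  rw [Subring.coe_pow, h4, pow_add, mul_smul]
  have h5 := T.smul_mem (l ^ (∑ i, k i - k i)) (hk i d)
  have h6 : (l ^ (∑ i, k i - k i)) • ((l : E) ^ k i • X i d) =
    (l : E) ^ (∑ i, k i - k i) • ((l : E) ^ k i • X i d) := rfl
  rw [← h6]
  exact h5

theorem card_inf [IsLocalRing (OE E)] (h : Lat b l t T) (L L' : Submodule E (D → Fin n → E))
    [FiniteDimensional E L] [FiniteDimensional E L'] (hb : ∀ X ∈ L, ∃ C : ℝ, ∀ d, ‖X d‖ ≤ C) :
    ∃ N₀ c : ℕ, ∀ N, N₀ ≤ N → Nat.card ↥(lamN T l N L ⊓ lamN T l N L') =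
      Nat.card (IsLocalRing.ResidueField (OE E)) ^ (N * Module.finrank E ↥(L ⊓ L')) * c := by
  classical
  obtain ⟨N₀, h0⟩ := exists_tor h L L' hb
  have hfd : FiniteDimensional E ↥(L ⊓ L') := Submodule.finiteDimensional_inf_left L L'
  set A := (cA T L L').toAddSubgroup with hA
  set B := (cA T (L ⊓ L') (L ⊓ L')).toAddSubgroup with hB
  have hBA : B ≤ A := by
    rintro x ⟨⟨X, hX, h1⟩, -⟩
    exact ⟨⟨X, hX.1, h1⟩, ⟨X, hX.2, h1⟩⟩
  refine ⟨N₀, B.relIndex A, fun N hN => ?_⟩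
  set K := (cA T L L' ⊓ tN T l N D).toAddSubgroup with hK
  have c0 := card_lamN h N (L ⊓ L') fun X hX => hb X hX.1
  have c1 : Nat.card (lamN T l N (L ⊓ L')) = Nat.card ↥(B ⊓ K) := by
    have c2 := card_cA (l := l) (T := T) N (L ⊓ L') (L ⊓ L')
    rw [inf_idem] at c2
    rw [c2]
    have e : B ⊓ K = (cA T (L ⊓ L') (L ⊓ L') ⊓ tN T l N D).toAddSubgroup := by
      apply le_antisymm
      · rintro x ⟨h1, h2⟩
        exact ⟨h1, h2.2⟩
      · rintro x ⟨h1, h2⟩
        exact ⟨h1, hBA h1, h2⟩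
    rw [e]
    rfl
  have e1 : B.relIndex K * Nat.card ↥(B ⊓ K) = Nat.card K := by
    have h3 := AddSubgroup.relIndex_mul_relIndex (⊥ : AddSubgroup (D → Wq T)) (B ⊓ K) K bot_le
      inf_le_right
    rw [AddSubgroup.relIndex_bot_left, AddSubgroup.relIndex_bot_left, mul_comm,
      AddSubgroup.inf_relIndex_right] at h3
    exact h3
  have e2 : B.relIndex K = B.relIndex A := by
    have h4 : K ⊔ B = A := by
      apply le_antisymm
      · exact sup_le (fun x hx => hx.1) hBA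
      · intro x hx
        obtain ⟨y, hy, h5⟩ := h0 x hx
        refine AddSubgroup.mem_sup.2 ⟨x - y, ⟨?_, fun d => ?_⟩, y, hy, sub_add_cancel x y⟩
        · exact (cA T L L').sub_mem hx (hBA hy)
        · obtain ⟨k, rfl⟩ := Nat.exists_eq_add_of_le hN
          rw [add_comm, pow_add, mul_smul, h5 d, smul_zero]
    rw [← h4, AddSubgroup.relIndex_sup_right]
  rw [card_cA, ← c0, c1, ← e2, mul_comm, e1]
  rfl

end Pool.Agent.Work.MP_787500_nt.OL
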