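import Mathlib
import Pool.Agent.Work.MP_787500_nt.OL.LevN
import Pool.Agent.Work.MP_787500_nt.OL.Lim

/-!
# The distance of the reductions of two Lagrangian subspaces

`dst_one`: for two Lagrangian subspaces `L`, `L'` the distance of their reductions of level 1 is congruent modulo 2
to the codimension of `L ⊓ L'` in `L`.
-/

set_option autoImplicit false
set_option linter.unusedSectionVars false

namespace Pool.Agent.Work.MP_787500_nt.OL

open Matrix
open Pool.Agent.Work.MP_787500_nt.GP (A0 IsAct d0 d1 d2 tw cup11 cup21 cup12 cup01 cup02 EvPow IsPow OE MN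
  actN actQ bN bil mq lft mq_lft mq_eq mq_add mq_smul Wq Lat pr0 lamN mem_OE card_pow isPow_mul
  evPow_cancel evPow_sq evPow_mul q_two_le card_lamN)
open Pool.Agent.Work.MP_787500_nt.KR (FSys Sm1 Sm2 IsChar Smooth Z1 Z2 B2 LocH LocD Pair LDual GlobH Mid Sha2
  IsTr zM z1s b1s h1 LocRep ZV PerpV zV mnI mnP)
open Pool.Agent.Work.MP_787500_nt.QS (QM Lag selQ HQ Flag pB Zq indY redY ind_lag)
open Pool.Agent.Work.MP_787500_nt.QV (QRep LagV beN laN qm_N flag_N lag_N num_N lag_t lag_sq)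
open Pool.Agent.Work.MP_787500_nt.PA (toE)

universe v

variable {E : Type v} [NormedField E] [NormedAlgebra ℚ_[2] E] [FiniteDimensional ℚ_[2] E] {n : ℕ}
  {Γ : Type*} [Group Γ] {S : FSys Γ} {χ : Γ → ℤ_[2]} {l : OE E} {t : E →ₗ[ℚ_[2]] ℚ_[2]}
  {T : Submodule (OE E) (Fin n → E)} {β Sm J : Matrix (Fin n) (Fin n) E}
  {ρ : Γ → Matrix (Fin n) (Fin n) E}

variable {P : Type*} [Group P] {TP : FSys P} {jp : P →* Γ} {iv : (P → P → A0) → A0}

/-- THE DISTANCE OF THE REDUCTIONS OF LEVEL 1. -/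
theorem dst_one [IsLocalRing (OE E)] (H : LocD.{v} TP (fun d => χ (jp d)) iv)
    (h : QRep S χ l t T β Sm J ρ) (hχ : IsChar S χ)
    (hj : ∀ W, S.mem W → ∃ W', TP.mem W' ∧ ∀ w ∈ W', jp w ∈ W)
    {L L' : Submodule E (P → Fin n → E)} [FiniteDimensional E L] [FiniteDimensional E L']
    (hL : LagV TP (fun d => χ (jp d)) Sm J (fun d => ρ (jp d)) L)
    (hL' : LagV TP (fun d => χ (jp d)) Sm J (fun d => ρ (jp d)) L') :
    EvPow (Nat.card (IsLocalRing.ResidueField (OE E)))
      (dst (lamN T l 1 L) (lamN T l 1 L') *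
        Nat.card (IsLocalRing.ResidueField (OE E)) ^
          (Module.finrank E L + Module.finrank E ↥(L ⊓ L'))) := by
  classical
  have hres : Finite (IsLocalRing.ResidueField (OE E)) := GP.res_finite
  have hfM : ∀ N, Finite (MN T l N) := fun N => GP.MN_finite h.lat N
  have hq := fun N => (qm_N h hχ N).comp hj
  have hld := fun N => H.ld (hq N).pair
  have hlag := fun N => lag_N H h hχ hj hL N
  have hfin : ∀ N, Finite (zM (O := OE E) TP (hq N).act (hq N).lin) := fun N => (hld N).fin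
  have hfY := fun N => lag_fin (hq N) (hfin N) (hlag N)
  have q2 : 2 ≤ Nat.card (IsLocalRing.ResidueField (OE E)) := q_two_le
  have hb : ∀ X ∈ L, ∃ C : ℝ, ∀ d, ‖X d‖ ≤ C := fun X hX => KR.zv_bdd (hL.coc X hX)
  obtain ⟨N₀, c, hc⟩ := card_inf h.lat L L' hb
  choose a ha using fun N => dst_pow (lamN T l N L) (lamN T l N L') (hfY N)
  have hstep : ∀ N, Even (a (N + 2) + a N) := fun N => by
    have h1 := dst_step H h hχ hj hL hL' N
    rwa [ha, ha, ← pow_add, ev_iff q2] at h1
  have h0 : a 0 = 0 := by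
    have c0 : Nat.card (lamN T l 0 L) = 1 :=
      (card_lamN h.lat 0 L hb).trans (by rw [zero_mul, pow_zero])
    have hs := (Nat.card_eq_one_iff_unique.1 c0).1
    have hs' : Subsingleton ↥(lamN T l 0 L ⊓ lamN T l 0 L') :=
      ⟨fun x y => by
        have e := Subsingleton.elim (⟨x.1, x.2.1⟩ : lamN T l 0 L) ⟨y.1, y.2.1⟩
        exact Subtype.ext (congrArg (fun z : lamN T l 0 L => z.1) e)⟩
    have c1 : Nat.card ↥(lamN T l 0 L ⊓ lamN T l 0 L') = 1 :=
      Nat.card_eq_one_iff_unique.2 ⟨hs', ⟨0⟩⟩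
    have h1 := ha 0
    unfold dst at h1
    rw [c0, c1, one_mul] at h1
    exact Nat.pow_right_injective q2 (h1.symm.trans (pow_zero _).symm)
  have hev : ∀ k, Even (a (2 * k)) := by
    intro k
    induction k with
    | zero => rw [mul_zero, h0]; exact Even.zero
    | succ k ih =>
      have h1 := hstep (2 * k)
      have h2 : 2 * (k + 1) = 2 * k + 2 := by ring
      rw [h2]
      rw [Nat.even_iff] at *
      omega
  have hod : ∀ k, Even (a 1 + a (2 * k + 1)) := by
    intro k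
    induction k with
    | zero => rw [mul_zero, zero_add]; exact ⟨a 1, rfl⟩
    | succ k ih =>
      have h1 := hstep (2 * k + 1)
      have h2 : 2 * (k + 1) + 1 = 2 * k + 1 + 2 := by ring
      rw [h2]
      rw [Nat.even_iff] at *
      omega
  set f := Module.finrank E L with hf
  set g := Module.finrank E ↥(L ⊓ L') with hg
  have key : ∀ N, N₀ ≤ N → Nat.card (IsLocalRing.ResidueField (OE E)) ^ a N =
      Nat.card (IsLocalRing.ResidueField (OE E)) ^ (N * f + N * g) * c := by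
    intro N hN
    rw [← ha, dst, hc N hN, card_lamN h.lat N L hb, pow_add, mul_assoc]
  have k1 := key (2 * N₀) (by omega)
  have k2 := key (2 * N₀ + 1) (by omega)
  have hle : 2 * N₀ * f + 2 * N₀ * g ≤ a (2 * N₀) :=
    (Nat.pow_dvd_pow_iff_le_right q2).1 ⟨c, k1⟩
  obtain ⟨s, hs⟩ := Nat.exists_eq_add_of_le hle
  have hcs : c = Nat.card (IsLocalRing.ResidueField (OE E)) ^ s := by
    rw [hs, pow_add] at k1
    exact (Nat.eq_of_mul_eq_mul_left (pow_pos (by omega) _) k1).symm
  rw [hcs, ← pow_add] at k2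
  have k3 := Nat.pow_right_injective q2 k2
  rw [ha, ← pow_add, ev_iff q2]
  have e1 := hev N₀
  have e2 := hod N₀
  rw [hs] at e1
  rw [k3] at e2
  have e3 : (2 * N₀ + 1) * f + (2 * N₀ + 1) * g + s = 2 * (N₀ * f + N₀ * g) + (f + g) + s := by ring
  have e4 : 2 * N₀ * f + 2 * N₀ * g + s = 2 * (N₀ * f + N₀ * g) + s := by ring
  rw [e4] at e1
  rw [e3] at e2
  rw [Nat.even_iff] at *
  omega

end Pool.Agent.Work.MP_787500_nt.OL
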