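import Mathlib
import Pool.Agent.Work.MP_787500_nt.OL.One
import Pool.Agent.Work.MP_787500_nt.KI.LevQ

/-!
# Change of the condition in the local contribution

* `locM_change`: the contribution changes by the parity of the distance.
* `locM_lag`: THE CONTRIBUTION OF AN ARBITRARY LAGRANGIAN SUBSPACE `L'` from the contribution of one Lagrangian
  subspace `L`: it is larger by `finrank L + finrank (L ⊓ L')` modulo 2.
-/

set_option autoImplicit false
set_option linter.unusedSectionVars false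

namespace Pool.Agent.Work.MP_787500_nt.OL

open Matrix
open Pool.Agent.Work.MP_787500_nt.GP (A0 hf smul_hf IsAct d0 tw cup11 EvPow IsPow OE MN actN actQ bN bil Lat
  lamN mq Wq card_pow isPow_mul q_two_le)
open Pool.Agent.Work.MP_787500_nt.KR (FSys Z1 Z2 Sm1 Smooth IsChar LocH LDual LocD d0_Z1 SDualF Pair
  LocRep sdualF_MN zM)
open Pool.Agent.Work.MP_787500_nt.KT hiding Str Rel Sel KH Ai IsP cc ff TT
open Pool.Agent.Work.MP_787500_nt.QS (Two ac2 be2 la2 Lag HQ selQ QM pB Zq be2_apply pB_apply prY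
  mem_prY urY mem_urY qm_two)
open Pool.Agent.Work.MP_787500_nt.QP (InvC)
open Pool.Agent.Work.MP_787500_nt.QV (QRep T2 J2 blk rho2 beN laN isoN iso_act iso_be iso_la selNQ
  card_selNQ LagV lag_N)
open Pool.Agent.Work.MP_787500_nt.KI

universe v

section change

variable {F : Type v} [Field F] [Finite F] [CharP F 2] [Algebra (ZMod 2) F] {M : Type v}
  [AddCommGroup M] [Finite M] {G Γ : Type*} [Group G] [Group Γ] {e : G →* Γ} {c : Γ} {κ : G →* G}
  {ρ : G → M → M} {b : M →+ M →+ A0} {C : M → M} {O : Type*} [CommRing O] [Algebra O F] [Module O M]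
  {Sq : FSys Γ} {χq : Γ → ℤ_[2]} {P : Type*} [Group P] {TP : FSys P} {jp : P →* Γ}
  {iv : (P → P → A0) → A0}

theorem dst_tra {O R : Type*} [CommRing O] [CommRing R] [Algebra O R] {P V V' : Type*} [AddCommGroup V] [Module O V]
    [AddCommGroup V'] [Module R V']
    {f : V ≃+ V'} (hf : SIso O R f) (Y Y' : Submodule O (P → V)) :
    dst (tra hf Y) (tra hf Y') = dst Y Y' := by
  unfold dst
  rw [← tra_inf, card_tra, card_tra]

/-- CHANGE OF THE CONDITION. -/
theorem locM_change (hL : LocH TP (fun d => χq (jp d)) iv)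
    (hj : ∀ W, Sq.mem W → ∃ W', TP.mem W' ∧ ∀ w ∈ W', jp w ∈ W) (X : Two e c κ)
    (hQM : QM Sq χq O (ac2 e c κ ρ) (be2 b) (la2 e c κ ρ b))
    (hfin : Finite {x : P → M × M // Z1 TP (fun d => ac2 e c κ ρ (jp d)) x})
    {Y Y' : Submodule O (P → M × M)}
    (hY : Lag TP iv (fun d => ac2 e c κ ρ (jp d)) (be2 b)
      (fun (a : O) d => la2 e c κ ρ b a (jp d)) Y)
    (hY' : Lag TP iv (fun d => ac2 e c κ ρ (jp d)) (be2 b)
      (fun (a : O) d => la2 e c κ ρ b a (jp d)) Y') {k δ : ℕ}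
    (hk : EvPow (Nat.card F) (dst Y Y' * Nat.card F ^ k))
    (h : LocM TP jp iv e c κ F ρ b C Y δ) : LocM TP jp iv e c κ F ρ b C Y' (δ + k) := by
  intro n iS L A hc
  obtain ⟨Y₀, t, m, hY₀, ht, hm, hev⟩ := h n iS L A hc
  have hf := siso_f2 hc.iso
  have hQM' : QM Sq χq F (ac2 e c κ (KT.act (A.comp e))) (be2 (bC A c))
      (la2 e c κ (KT.act (A.comp e)) (bC A c)) :=
    qm_tra hf (fun σ v => hc.act2 X σ v) hc.be (fun a σ v => hc.la X a σ v) hQM
  have hq := hQM'.comp hj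
  have lt : ∀ {Y : Submodule O (P → M × M)}, Lag TP iv (fun d => ac2 e c κ ρ (jp d)) (be2 b)
      (fun (a : O) d => la2 e c κ ρ b a (jp d)) Y →
      Lag TP iv (fun d => ac2 e c κ (KT.act (A.comp e)) (jp d)) (be2 (bC A c))
      (fun (a : F) d => la2 e c κ (KT.act (A.comp e)) (bC A c) a (jp d)) (tra hf Y) := fun hY =>
    lag_tra hf (fun d v => hc.act2 X (jp d) v) hc.be (fun a d v => hc.la X a (jp d) v) hY
  have hres := finite_res (F := F)
  have hfz : Finite (zM (O := F) TP hq.act hq.lin) := by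
    refine Finite.of_injective (fun x : zM (O := F) TP hq.act hq.lin =>
      (⟨fun d => (f2 L).symm (x.1 d), ?_⟩ :
        {x : P → M × M // Z1 TP (fun d => ac2 e c κ ρ (jp d)) x})) fun x y hxy => ?_
    · have h1 := x.2
      refine (z1_tra (f := f2 L) (T := TP) (ρ := fun d => ac2 e c κ ρ (jp d))
        (ρ' := fun d => ac2 e c κ (KT.act (A.comp e)) (jp d))
        (fun d v => hc.act2 X (jp d) v)).1 ?_
      have e1 : (fun d => (f2 L) ((f2 L).symm (x.1 d))) = x.1 :=
        funext fun d => (f2 L).apply_symm_apply _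
      rw [e1]
      exact h1
    · apply Subtype.ext
      funext d
      have e1 := congrArg
        (fun z : {x : P → M × M // Z1 TP (fun d => ac2 e c κ ρ (jp d)) x} => z.1 d) hxy
      exact (f2 L).symm.injective e1
  have key := dst_trans hL hq hfz (lt hY) (lt hY') hY₀
  have q2 : 2 ≤ Nat.card F := Finite.one_lt_card
  rw [card_res, dst_tra] at key
  have fd1 := lag_fin hq hfz (lt hY)
  have fd2 := lag_fin hq hfz (lt hY')
  have g1 : FiniteDimensional F (tra hf Y) := Module.Finite.of_finite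
  have g2 : FiniteDimensional F (tra hf Y') := Module.Finite.of_finite
  have g3 : FiniteDimensional F ↥(tra hf Y ⊓ Y₀) := Submodule.finiteDimensional_inf_left _ _
  have g4 : FiniteDimensional F ↥(tra hf Y' ⊓ Y₀) := Submodule.finiteDimensional_inf_left _ _
  have g5 : FiniteDimensional F ↥(tra hf Y ⊓ tra hf Y') := Submodule.finiteDimensional_inf_left _ _
  have ed : dst Y Y' = Nat.card F ^
      (Module.finrank F (tra hf Y) + Module.finrank F ↥(tra hf Y ⊓ tra hf Y')) := by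
    rw [← dst_tra hf, dst, Module.natCard_eq_pow_finrank (K := F) (V := tra hf Y),
      Module.natCard_eq_pow_finrank (K := F) (V := ↥(tra hf Y ⊓ tra hf Y')), pow_add]
  rw [ed, ← pow_add, ev_iff q2] at hk
  rw [ed, dst, dst, Module.natCard_eq_pow_finrank (K := F) (V := tra hf Y),
    Module.natCard_eq_pow_finrank (K := F) (V := tra hf Y'),
    Module.natCard_eq_pow_finrank (K := F) (V := ↥(tra hf Y ⊓ Y₀)),
    Module.natCard_eq_pow_finrank (K := F) (V := ↥(tra hf Y' ⊓ Y₀)), ← pow_add, ← pow_add,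
    ← pow_add, ← pow_add, ev_iff q2] at key
  refine ⟨Y₀, t, m, hY₀, ht, hm, ?_⟩
  rw [Int.even_iff] at hev ⊢
  rw [Nat.even_iff] at hk key
  push_cast
  omega

end change

section lag

variable {E : Type v} [NormedField E] [NormedAlgebra ℚ_[2] E] [FiniteDimensional ℚ_[2] E]
  [IsLocalRing (OE E)]
  [Finite (IsLocalRing.ResidueField (OE E))] [CharP (IsLocalRing.ResidueField (OE E)) 2]
  [Algebra (ZMod 2) (IsLocalRing.ResidueField (OE E))] {n : ℕ}
  {G Γ : Type*} [Group G] [Group Γ] {e : G →* Γ} {c : Γ} {κ : G →* G}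
  {ρ : G → Matrix (Fin n) (Fin n) E} {S : FSys G} {Sq : FSys Γ} {χ : G → ℤ_[2]} {χq : Γ → ℤ_[2]}
  {l : OE E} {t : E →ₗ[ℚ_[2]] ℚ_[2]} {T : Submodule (OE E) (Fin n → E)}
  {b : Matrix (Fin n) (Fin n) E} {P : Type*} [Group P] {TP : FSys P} {jp : P →* Γ}
  {iv : (P → P → A0) → A0}

/-- THE CONTRIBUTION OF AN ARBITRARY LAGRANGIAN SUBSPACE. -/
theorem locM_lag (H : LocD.{v} TP (fun d => χq (jp d)) iv) (hχq : IsChar Sq χq)
    (hj : ∀ W, Sq.mem W → ∃ W', TP.mem W' ∧ ∀ w ∈ W', jp w ∈ W) (X : Two e c κ)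
    (hχ : ∀ g, χq (e g) = χ g) (hc : χq c = -1)
    (up : ∀ W, S.mem W → ∃ W', Sq.mem W' ∧ ∀ σ ∈ W', ∃ g ∈ W, e g = σ)
    (ks : ∀ W, S.mem W → ∃ W', S.mem W' ∧ ∀ v ∈ W', κ v ∈ W) (hl : Lat b l t T)
    (hr : LocRep S χ T b ρ (fun g => ρ (κ g))) {Sm J : Matrix (Fin (n + n)) (Fin (n + n)) E}
    (h : QRep Sq χq l t (T2 T) (blk 0 b 0 0) Sm J (rho2 e c κ ρ)) {C : MN T l 1 → MN T l 1}
    {L L' : Submodule E (P → Fin (n + n) → E)} [FiniteDimensional E L] [FiniteDimensional E L']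
    (hL : LagV TP (fun d => χq (jp d)) Sm J (fun d => rho2 e c κ ρ (jp d)) L)
    (hL' : LagV TP (fun d => χq (jp d)) Sm J (fun d => rho2 e c κ ρ (jp d)) L') {δ : ℕ}
    (hloc : LocM TP jp iv e c κ (IsLocalRing.ResidueField (OE E)) (actN l 1 ρ hr.st) (bN hl 1) C
      (YM T l L) δ) :
    LocM TP jp iv e c κ (IsLocalRing.ResidueField (OE E)) (actN l 1 ρ hr.st) (bN hl 1) C (YM T l L')
      (δ + (Module.finrank E L + Module.finrank E ↥(L ⊓ L'))) := by
  have hfin : Finite (MN T l 1) := GP.MN_finite hl 1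
  have hs : SDualF S χ κ ∅ (OE E) (actN l 1 ρ hr.st) (bN hl 1) :=
    sdualF_MN hl hr (fun p hp => absurd hp (Set.notMem_empty p)) 1
  have hqm := qm_two X hχ hc hχq.mul up ks hs
  have l1 := lag_YM X hχ hc hχq.mul hl hr h (lag_N H h hχq hj hL 1)
  have l2 := lag_YM X hχ hc hχq.mul hl hr h (lag_N H h hχq hj hL' 1)
  refine locM_change H.toLocH hj X hqm (H.ld (hqm.comp hj).pair).fin l1 l2 ?_ hloc
  have k := dst_one H h hχq hj hL hL'
  have e1 : dst (YM T l L) (YM T l L') = dst (lamN (T2 T) l 1 L) (lamN (T2 T) l 1 L') :=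
    dst_tra (siso_iso T l) _ _
  rw [e1]
  exact k

end lag

end Pool.Agent.Work.MP_787500_nt.OL
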