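import Mathlib
import Pool.Agent.Work.MP_787500_nt.OL.One
import Pool.Agent.Work.MP_787500_nt.KR.L15

/-!
# The dimension of the Lagrangian subspaces

`lag_rank`: two conditions in characteristic 0 that are their own annihilators have the same dimension. `lag_fd`: they
are finite dimensional.
-/

set_option autoImplicit false
set_option linter.unusedSectionVars false

namespace Pool.Agent.Work.MP_787500_nt.OL

open Matrix
open Pool.Agent.Work.MP_787500_nt.GP (A0 OE MN bil Lat lamN q_two_le card_lamN)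
open Pool.Agent.Work.MP_787500_nt.KR (FSys IsChar LocH LocD LDual LocRep ZV zV)
open Pool.Agent.Work.MP_787500_nt.QS (QM Lag)
open Pool.Agent.Work.MP_787500_nt.QV (QRep LagV qm_N lag_N)

universe v

variable {E : Type v} [NormedField E] [NormedAlgebra ℚ_[2] E] [FiniteDimensional ℚ_[2] E] {n : ℕ}
  {Γ : Type*} [Group Γ] {S : FSys Γ} {χ : Γ → ℤ_[2]} {l : OE E} {t : E →ₗ[ℚ_[2]] ℚ_[2]}
  {T : Submodule (OE E) (Fin n → E)} {β Sm J : Matrix (Fin n) (Fin n) E}
  {ρ : Γ → Matrix (Fin n) (Fin n) E}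

variable {P : Type*} [Group P] {TP : FSys P} {jp : P →* Γ} {iv : (P → P → A0) → A0}

theorem lag_fd (H : LocD.{v} TP (fun d => χ (jp d)) iv) {σ : P → Matrix (Fin n) (Fin n) E}
    (h1 : σ 1 = 1) (hm : ∀ s u, σ (s * u) = σ s * σ u) {L : Submodule E (P → Fin n → E)}
    (hL : LagV TP (fun d => χ (jp d)) Sm J σ L) : FiniteDimensional E L := by
  have h2 : FiniteDimensional E (zV TP σ) := KR.zV_fd H.gens h1 hm
  have h3 : L ≤ zV TP σ := fun X hX => hL.coc X hX
  exact Submodule.finiteDimensional_of_le h3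

/-- THE DIMENSION of the Lagrangian subspaces. -/
theorem lag_rank [IsLocalRing (OE E)] (H : LocD.{v} TP (fun d => χ (jp d)) iv)
    (h : QRep S χ l t T β Sm J ρ) (hχ : IsChar S χ)
    (hj : ∀ W, S.mem W → ∃ W', TP.mem W' ∧ ∀ w ∈ W', jp w ∈ W)
    {L L' : Submodule E (P → Fin n → E)} [FiniteDimensional E L] [FiniteDimensional E L']
    (hL : LagV TP (fun d => χ (jp d)) Sm J (fun d => ρ (jp d)) L)
    (hL' : LagV TP (fun d => χ (jp d)) Sm J (fun d => ρ (jp d)) L') :
    Module.finrank E L = Module.finrank E L' := by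
  have hres : Finite (IsLocalRing.ResidueField (OE E)) := GP.res_finite
  have hfM : Finite (MN T l 1) := GP.MN_finite h.lat 1
  have hq := (qm_N h hχ 1).comp hj
  have e1 := lag_card H.toLocH hq (H.ld hq.pair) (lag_N H h hχ hj hL 1) (lag_N H h hχ hj hL' 1)
  rw [card_lamN h.lat 1 L fun X hX => KR.zv_bdd (hL.coc X hX),
    card_lamN h.lat 1 L' fun X hX => KR.zv_bdd (hL'.coc X hX), one_mul, one_mul] at e1
  exact Nat.pow_right_injective q_two_le e1

end Pool.Agent.Work.MP_787500_nt.OL
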