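import Mathlib
import Pool.Agent.Work.MP_787500_nt.KR.L02

/-!
# Cocycles with values in `E (1)` twisted by a sign character

`be_eps`: for a local group with local duality and a nontrivial character `ε` with values `1` and `-1`, all the
continuous 2-cocycles with values in `E` twisted by `χ ε` are coboundaries. (`H^2` of the finite module twisted by
`χ ε` is dual to the invariants of the module twisted by `ε`, which are killed by 2.)
-/

set_option autoImplicit false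
set_option linter.unusedSectionVars false

namespace Pool.Agent.Work.MP_787500_nt.OL

open Pool.Agent.Work.MP_787500_nt.GP (A0 pr0 pr0_eq_zero IsAct d0 d1 d2 tw cup02)
open Pool.Agent.Work.MP_787500_nt.KR (FSys Z1 Z2 B2 Sm1 Sm2 Smooth IsChar C1 LocH LDual LocD Pair)
open Pool.Agent.Work.MP_787500_nt.PA (toE dd dE)
open Pool.Agent.Work.MP_787500_nt.KP.InvEAux

variable {D : Type*} [Group D] {SD : FSys D} {χ ε : D → ℤ_[2]} {inv : (D → D → A0) → A0}

/-- the zero cocycle -/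
theorem inv_zero (L : LocH SD χ inv) : inv (fun _ _ => 0) = 0 := by
  obtain ⟨W, hW⟩ := SD.ex
  have h1 := L.cob (fun _ => 0) ⟨W, hW, fun _ _ _ => rfl⟩
  have h2 : d1 (tw χ) (fun _ => (0 : A0)) = fun _ _ => 0 := by
    funext a b
    show (0 : A0) + χ a • (0 : A0) - 0 = 0
    rw [smul_zero, add_zero, sub_zero]
  rwa [h2] at h1

section zmod

variable (k : ℕ)

theorem zm_val (m : ZMod (2 ^ k)) : PadicInt.toZModPow k ((m.val : ℕ) : ℤ_[2]) = m := by
  rw [map_natCast]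
  have : NeZero (2 ^ k) := ⟨pow_ne_zero k two_ne_zero⟩
  exact ZMod.natCast_zmod_val m

theorem zm_dvd {x : ℤ_[2]} : PadicInt.toZModPow k x = 0 ↔ (2 : ℤ_[2]) ^ k ∣ x := by
  rw [← RingHom.mem_ker, PadicInt.ker_toZModPow, Ideal.mem_span_singleton]
  norm_num

theorem zm_pr0 {x y : ℤ_[2]} (h : PadicInt.toZModPow k x = PadicInt.toZModPow k y) :
    pr0 ((x : ℚ_[2]) / 2 ^ k) = pr0 ((y : ℚ_[2]) / 2 ^ k) := by
  rw [← sub_eq_zero, ← map_sub, zm_dvd] at h
  obtain ⟨c, hc⟩ := h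
  rw [← sub_eq_zero, ← map_sub, pr0_eq_zero]
  refine ⟨c, ?_⟩
  have h2 : (2 : ℚ_[2]) ^ k ≠ 0 := pow_ne_zero _ two_ne_zero
  have h3 : (x : ℚ_[2]) - y = 2 ^ k * (c : ℚ_[2]) := by
    rw [← PadicInt.coe_sub, hc]
    push_cast
    rfl
  rw [← sub_div, h3, mul_div_cancel_left₀ _ h2]

/-- the embedding of `ℤ / 2 ^ k` -/
noncomputable def zmA : ZMod (2 ^ k) →+ A0 where
  toFun m := pr0 ((((m.val : ℕ) : ℤ_[2]) : ℚ_[2]) / 2 ^ k)
  map_zero' := by
    have h : pr0 ((((((0 : ZMod (2 ^ k)).val : ℕ) : ℤ_[2]) : ℚ_[2])) / 2 ^ k) =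
        pr0 (((0 : ℤ_[2]) : ℚ_[2]) / 2 ^ k) := zm_pr0 k (by rw [zm_val, map_zero])
    rw [h]
    simp
  map_add' m m' := by
    rw [← map_add, ← add_div, ← PadicInt.coe_add]
    exact zm_pr0 k (by rw [zm_val, map_add, zm_val, zm_val])

theorem zmA_apply (x : ℤ_[2]) : zmA k (PadicInt.toZModPow k x) = pr0 ((x : ℚ_[2]) / 2 ^ k) :=
  zm_pr0 k (zm_val k _)

theorem zmA_smul (u : ℤ_[2]) (m : ZMod (2 ^ k)) :
    zmA k (PadicInt.toZModPow k u * m) = u • zmA k m := by
  conv_lhs => rw [← zm_val k m]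
  conv_rhs => rw [← zm_val k m]
  rw [← map_mul, zmA_apply, zmA_apply, ← map_smul, Algebra.smul_def]
  congr 1
  push_cast
  rw [mul_div_assoc]
  rfl

theorem zmA_inj {m : ZMod (2 ^ k)} (h : zmA k m = 0) : m = 0 := by
  rw [← zm_val k m, zmA_apply, pr0_eq_zero] at h
  obtain ⟨a, ha⟩ := h
  rw [← zm_val k m, zm_dvd]
  refine ⟨a, ?_⟩
  apply PadicInt.ext
  have h2 : (2 : ℚ_[2]) ^ k ≠ 0 := pow_ne_zero _ two_ne_zero
  have e2 : ((2 : ℤ_[2]) : ℚ_[2]) = 2 := rfl
  rw [PadicInt.coe_mul, PadicInt.coe_pow, e2, ha, mul_div_cancel₀ _ h2]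

end zmod

theorem chi_eps (hχ : IsChar SD χ) (hε : IsChar SD ε) : IsChar SD (fun d => χ d * ε d) where
  one := by rw [hχ.one, hε.one, one_mul]
  mul g h := by rw [hχ.mul, hε.mul]; ring
  cont n := by
    obtain ⟨W, hW, h⟩ := hχ.cont n
    obtain ⟨W', hW', h'⟩ := hε.cont n
    refine ⟨W ⊓ W', SD.inf hW hW', fun g w hw => ?_⟩
    have e : χ (g * w) * ε (g * w) - χ g * ε g =
        (χ (g * w) - χ g) * ε (g * w) + χ g * (ε (g * w) - ε g) := by ring
    rw [e]
    exact dvd_add ((h g w hw.1).mul_right _) ((h' g w hw.2).mul_left _)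
  odd g := by
    have e : χ g * ε g - 1 = (χ g - 1) * ε g + (ε g - 1) := by ring
    rw [e]
    exact dvd_add ((hχ.odd g).mul_right _) (hε.odd g)

private theorem act_of (hχ : IsChar SD χ) (k : ℕ) :
    IsAct (fun d (m : ZMod (2 ^ k)) => PadicInt.toZModPow k (χ d) * m) where
  one m := by rw [hχ.one, map_one, one_mul]
  mul g h m := by rw [hχ.mul, map_mul, mul_assoc]
  add g m m' := mul_add _ _ _

private theorem sm_of (hχ : IsChar SD χ) (k : ℕ) :
    Smooth SD (fun d (m : ZMod (2 ^ k)) => PadicInt.toZModPow k (χ d) * m) := by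
  obtain ⟨W, hW, h⟩ := hχ.cont k
  refine ⟨W, hW, fun w hw m => ?_⟩
  have h1 := h 1 w hw
  rw [one_mul, hχ.one, ← zm_dvd, map_sub, sub_eq_zero, map_one] at h1
  show PadicInt.toZModPow k (χ w) * m = m
  rw [h1, one_mul]

/-- THE TWISTED CLASSES modulo `2 ^ k` are killed by 2. -/
theorem cobMod_eps (L : LocD.{0} SD χ inv) (hε : IsChar SD ε) (hsq : ∀ d, ε d * ε d = 1) {τ : D}
    (hτ : ε τ = -1) {F : D → D → ℤ_[2]} (hF : KP.Z2 SD (fun d => χ d * ε d) F) (k : ℕ) :
    KP.CobMod SD (fun d => χ d * ε d) k (fun a b => 2 * F a b) := by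
  have hχε := chi_eps L.char hε
  let B : ZMod (2 ^ k) →+ ZMod (2 ^ k) →+ A0 := (AddMonoidHom.mul).compr₂ (zmA k)
  have hB : ∀ m m', B m m' = zmA k (m * m') := fun m m' => rfl
  have hP : Pair SD χ (fun d (m : ZMod (2 ^ k)) => PadicInt.toZModPow k (ε d) * m)
      (fun d m => PadicInt.toZModPow k (χ d * ε d) * m) B := by
    refine ⟨act_of hε k, act_of hχε k, sm_of hε k, sm_of hχε k, fun g m m' => ?_, fun m h => ?_,
      fun m h => ?_⟩
    · rw [hB, hB, ← zmA_smul]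
      congr 1
      have h1 : PadicInt.toZModPow k (ε g) * PadicInt.toZModPow k (ε g) = 1 := by
        rw [← map_mul, hsq, map_one]
      rw [map_mul]
      linear_combination PadicInt.toZModPow k (χ g) * m * m' * h1
    · have h1 := h 1
      rw [hB, mul_one] at h1
      exact zmA_inj k h1
    · have h1 := h 1
      rw [hB, one_mul] at h1
      exact zmA_inj k h1
  have hL := L.ld hP
  obtain ⟨x, ⟨W, hW, hx⟩, h1⟩ := hL.two (fun a b => PadicInt.toZModPow k (2 * F a b)) ⟨by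
    obtain ⟨W, hW, h⟩ := hF.1 k
    refine ⟨W, hW, fun g h' w hw w' hw' => ?_⟩
    have h1 := h g h' w hw w' hw'
    rw [← zm_dvd, map_sub, sub_eq_zero] at h1
    show PadicInt.toZModPow k (2 * F (g * w) (h' * w')) = PadicInt.toZModPow k (2 * F g h')
    rw [map_mul, map_mul, h1], fun a b c => by
    show PadicInt.toZModPow k (χ a * ε a) * PadicInt.toZModPow k (2 * F b c) -
      PadicInt.toZModPow k (2 * F (a * b) c) + PadicInt.toZModPow k (2 * F a (b * c)) -
      PadicInt.toZModPow k (2 * F a b) = 0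
    rw [← map_mul, ← map_sub, ← map_add, ← map_sub]
    have h1 := hF.2 a b c
    have e : χ a * ε a * (2 * F b c) - 2 * F (a * b) c + 2 * F a (b * c) - 2 * F a b = 0 := by
      linear_combination (-2 : ℤ_[2]) * h1
    rw [e, map_zero]⟩ (fun z hz => by
      rw [← inv_zero L.toLocH]
      congr 1
      funext a b
      show B z (PadicInt.toZModPow k (2 * F a b)) = 0
      have h1 := hz τ
      simp only [hτ, map_neg, map_one] at h1
      have h2 : z * PadicInt.toZModPow k (2 * F a b) = 0 := by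
        rw [map_mul, map_ofNat]
        linear_combination (-PadicInt.toZModPow k (F a b)) * h1
      rw [hB, h2, map_zero])
  refine ⟨fun d => (((x d).val : ℕ) : ℤ_[2]), ⟨W, hW, fun g w hw => ?_⟩, fun a b => ?_⟩
  · show (((x (g * w)).val : ℕ) : ℤ_[2]) = _
    rw [hx g w hw]
  · rw [← zm_dvd, map_sub, sub_eq_zero]
    have h2 := congrFun (congrFun h1 a) b
    rw [h2]
    show x a + PadicInt.toZModPow k (χ a * ε a) * x b - x (a * b) =
      PadicInt.toZModPow k ((((x a).val : ℕ) : ℤ_[2]) + χ a * ε a * (((x b).val : ℕ) : ℤ_[2]) -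
        (((x (a * b)).val : ℕ) : ℤ_[2]))
    rw [map_sub, map_add, map_mul (PadicInt.toZModPow k) (χ a * ε a), zm_val, zm_val, zm_val]

variable {E : Type*} [NormedField E] [NormedAlgebra ℚ_[2] E] [FiniteDimensional ℚ_[2] E]

/-- a cochain whose components are coboundaries -/
theorem be_comp {χ : D → ℤ_[2]} {f : D → D → E}
    (h : ∀ φ : E →L[ℚ_[2]] ℚ_[2], KP.BE SD χ (fun a b => φ (f a b))) : KP.BE SD χ f := by
  classical
  let e := Module.finBasis ℚ_[2] E
  let φ : Fin (Module.finrank ℚ_[2] E) → (E →L[ℚ_[2]] ℚ_[2]) :=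
    fun i => LinearMap.toContinuousLinearMap (e.coord i)
  have hφ : ∀ i x, φ i x = e.repr x i := fun i x => rfl
  have hrep : ∀ x : E, ∑ i, φ i x • e i = x := by
    intro x
    simp only [hφ]
    exact e.sum_repr x
  have hB : ∀ i, KP.BE SD χ (fun g h => φ i (f g h)) := fun i => h (φ i)
  choose z hz hfz using hB
  let M : Fin (Module.finrank ℚ_[2] E) → (ℚ_[2] →L[ℚ_[2]] E) :=
    fun i => ContinuousLinearMap.smulRight (ContinuousLinearMap.id ℚ_[2] ℚ_[2]) (e i)
  have hL : ∀ i c, M i c = c • e i := fun i c => rfl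
  refine ⟨fun g => ∑ i, M i (z i g), N1_sum _ _ fun i => N1_comp (M i) (hz i), ?_⟩
  funext g k
  have h2 : ∀ i, φ i (f g k) = PA.dE χ (z i) g k := fun i => congrFun (congrFun (hfz i) g) k
  rw [← hrep (f g k)]
  simp only [PA.dE, toE_mul, Finset.smul_sum, ← Finset.sum_add_distrib, ← Finset.sum_sub_distrib]
  refine Finset.sum_congr rfl fun i _ => ?_
  rw [h2 i, PA.dE, hL, hL, hL, toE_mul, sub_smul, add_smul, smul_smul, smul_eq_mul]

/-- THE TWISTED CLASSES ARE TRIVIAL. -/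
theorem be_eps (L : LocD.{0} SD χ inv) (hε : IsChar SD ε) (hsq : ∀ d, ε d * ε d = 1) {τ : D}
    (hτ : ε τ = -1) {f : D → D → E} (hf : KP.ZE SD (fun d => χ d * ε d) f) :
    KP.BE SD (fun d => χ d * ε d) f := by
  refine be_comp fun φ => ?_
  obtain ⟨c, F, hF, hc⟩ := KP.QTwoAux.clear (ZE_comp φ hf)
  obtain ⟨X, hX⟩ := L.gens
  have hF2 : KP.Z2 SD (fun d => χ d * ε d) (fun a b => 2 * F a b) := by
    refine ⟨fun m => ?_, fun g h k => ?_⟩
    · obtain ⟨W, hW, h⟩ := hF.1 m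
      refine ⟨W, hW, fun g h' w hw w' hw' => ?_⟩
      rw [← mul_sub]
      exact (h g h' w hw w' hw').mul_left _
    · have h1 := hF.2 g h k
      show 2 * F g h + 2 * F (g * h) k = χ g * ε g * (2 * F h k) + 2 * F g (h * k)
      linear_combination (2 : ℤ_[2]) * h1
  have hB := KP.b2_of_forall (chi_eps L.char hε) hX hF2 (cobMod_eps L hε hsq hτ hF)
  have h2 := KP.QTwoAux.BE_mul ((2 : ℚ_[2]) ^ (c + 1))⁻¹ (KP.QTwoAux.B2.be hB)
  have h20 : (2 : ℚ_[2]) ^ (c + 1) ≠ 0 := pow_ne_zero _ two_ne_zero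
  convert h2 using 3 with a b
  have e2 : ((2 : ℤ_[2]) : ℚ_[2]) = 2 := rfl
  rw [PadicInt.coe_mul, e2, ← hc a b, pow_succ]
  field_simp

end Pool.Agent.Work.MP_787500_nt.OL
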