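import Mathlib
import Pool.Agent.Work.MP_787500_nt.KP.QTwo

/-!
# Restriction to a subgroup of index two

* `Ix j τ k t`: `j : H → D` is injective, its image has two cosets `j H` and `j H * τ`, `τ * j h = j (k h) * τ`,
  `τ * τ = j t`.
* `be_res`: a 2-cocycle of `D` whose restriction to `H` is a coboundary is a coboundary (values in `E`).
-/

set_option autoImplicit false
set_option linter.unusedSectionVars false

namespace Pool.Agent.Work.MP_787500_nt.OL

open Pool.Agent.Work.MP_787500_nt.KR (FSys Sm1 IsChar)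
open Pool.Agent.Work.MP_787500_nt.PA (toE dE)
open Pool.Agent.Work.MP_787500_nt.KP.InvEAux
open Pool.Agent.Work.MP_787500_nt.KP (N1 N2 ZE BE)

/-- a subgroup of index two, an element of the other coset, the conjugation by it, its square -/
structure Ix {H D : Type*} [Group H] [Group D] (j : H →* D) (τ : D) (k : H → H) (t : H) : Prop where
  inj : Function.Injective j
  cases : ∀ d, (∃ a, j a = d) ∨ ∃ a, j a * τ = d
  out : ∀ a, j a ≠ τ
  kap : ∀ a, j (k a) * τ = τ * j a
  sq : j t = τ * τ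

/-- small members of the system of `D` are small members of the system of `H` -/
def Up {H D : Type*} [Group H] [Group D] (SH : FSys H) (SD : FSys D) (j : H →* D) : Prop :=
  ∀ W, SH.mem W → ∃ W', SD.mem W' ∧ ∀ w ∈ W', ∃ a ∈ W, j a = w

/-- the system of `D` restricts to the system of `H` -/
def Dn {H D : Type*} [Group H] [Group D] (SH : FSys H) (SD : FSys D) (j : H →* D) : Prop :=
  ∀ W, SD.mem W → ∃ W', SH.mem W' ∧ ∀ a ∈ W', j a ∈ W

variable {H D : Type*} [Group H] [Group D] {SH : FSys H} {SD : FSys D} {j : H →* D} {τ : D} {k : H → H} {t : H}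

namespace Ix

theorem ne (X : Ix j τ k t) (a b : H) : j a ≠ j b * τ := by
  intro h
  refine X.out (b⁻¹ * a) ?_
  rw [map_mul, map_inv, h, inv_mul_cancel_left]

theorem dinj (X : Ix j τ k t) {a b : H} (h : j a * τ = j b * τ) : a = b :=
  X.inj (mul_right_cancel h)

theorem k_mul (X : Ix j τ k t) (a b : H) : k (a * b) = k a * k b := by
  refine X.dinj ?_
  rw [X.kap, map_mul, map_mul, mul_assoc (j (k a)), X.kap, ← mul_assoc (j (k a)), X.kap, mul_assoc]

theorem kj (X : Ix j τ k t) (a : H) : j (k a) = τ * j a * τ⁻¹ := by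
  rw [← X.kap, mul_inv_cancel_right]

theorem tau_mul (X : Ix j τ k t) (a : H) : τ * (j a * τ) = j (k a * t) := by
  rw [← mul_assoc, ← X.kap, mul_assoc, ← X.sq, map_mul]

/-- the members of the system which are contained in the subgroup, in coordinates -/
theorem mul_mem (X : Ix j τ k t) {V : Subgroup H} {W : Subgroup D} (hn : W.Normal)
    (hW : ∀ w ∈ W, ∃ a ∈ V, j a = w) {w : D} (hw : w ∈ W) :
    ∃ a, j a = w ∧ a ∈ V ∧ k a ∈ V ∧ j (k a) ∈ W := by
  obtain ⟨a, ha, rfl⟩ := hW w hw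
  have h1 : j (k a) ∈ W := by
    rw [X.kj]
    exact hn.conj_mem _ hw τ
  obtain ⟨b, hb, h2⟩ := hW _ h1
  have h3 := X.inj h2
  exact ⟨a, rfl, ha, h3 ▸ hb, h1⟩

end Ix

open scoped Classical in
/-- a function defined on the two cosets -/
noncomputable def glue {A : Type*} (j : H →* D) (τ : D) (f g : H → A) (d : D) : A :=
  if h : ∃ a, j a = d then f h.choose else if h : ∃ a, j a * τ = d then g h.choose else f 1

variable {A : Type*}

theorem glue_e (X : Ix j τ k t) (f g : H → A) (a : H) : glue j τ f g (j a) = f a := by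
  have h : ∃ b, j b = j a := ⟨a, rfl⟩
  rw [glue, dif_pos h, X.inj h.choose_spec]

theorem glue_t (X : Ix j τ k t) (f g : H → A) (a : H) : glue j τ f g (j a * τ) = g a := by
  have h0 : ¬∃ b, j b = j a * τ := fun ⟨b, h⟩ => X.ne b a h
  have h : ∃ b, j b * τ = j a * τ := ⟨a, rfl⟩
  rw [glue, dif_neg h0, dif_pos h, X.dinj h.choose_spec]

/-- continuity of a function defined on the two cosets -/
theorem glue_n1 [NormedAddCommGroup A] (X : Ix j τ k t) (up : Up SH SD j) {f g : H → A}
    (hf : N1 SH f) (hg : N1 SH g) : N1 SD (glue j τ f g) := by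
  intro ε hε
  obtain ⟨V, hV, h1⟩ := hf ε hε
  obtain ⟨V', hV', h2⟩ := hg ε hε
  obtain ⟨W, hW, h3⟩ := up _ (SH.inf hV hV')
  refine ⟨W, hW, fun d w hw => ?_⟩
  obtain ⟨a, rfl, ha, hka, -⟩ := X.mul_mem (SD.normal hW) h3 hw
  rcases X.cases d with ⟨b, rfl⟩ | ⟨b, rfl⟩
  · rw [← map_mul, glue_e X, glue_e X]
    exact h1 b a ha.1
  · have e : j b * τ * j a = j (b * k a) * τ := by
      rw [mul_assoc, ← X.kap, map_mul, mul_assoc]
    rw [e, glue_t X, glue_t X]
    exact h2 b _ hka.2

section be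

variable {E : Type*} [NormedField E] [NormedAlgebra ℚ_[2] E] {χ : D → ℤ_[2]}

theorem toE_m (a b : ℤ_[2]) : toE E (a * b) = toE E a * toE E b := by
  show algebraMap ℚ_[2] E ((a * b : ℤ_[2]) : ℚ_[2]) = _
  rw [PadicInt.coe_mul, map_mul]
  rfl

theorem toE_o : toE E 1 = 1 := by
  show algebraMap ℚ_[2] E ((1 : ℤ_[2]) : ℚ_[2]) = _
  rw [PadicInt.coe_one, map_one]

/-- A COCYCLE WHOSE RESTRICTION IS A COBOUNDARY. -/
theorem be_res (X : Ix j τ k t) (hm : ∀ s u, χ (s * u) = χ s * χ u) (h1 : χ 1 = 1) (up : Up SH SD j)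
    (dn : Dn SH SD j) {F : D → D → E} (hF : ZE SD χ F)
    (hB : BE SH (fun a => χ (j a)) (fun a b => F (j a) (j b))) : BE SD χ F := by
  obtain ⟨z, hz, hFz⟩ := hB
  obtain ⟨hF2, hFc⟩ := hF
  have hFz' : ∀ a b, F (j a) (j b) = z a + toE E (χ (j a)) * z b - z (a * b) := fun a b =>
    congrFun (congrFun hFz a) b
  obtain ⟨x, hx⟩ : ∃ x : D → E, x = fun s => toE E (χ s) := ⟨_, rfl⟩
  have hxx : ∀ s, toE E (χ s) = x s := fun s => by rw [hx]
  have xm : ∀ s u, x (s * u) = x s * x u := fun s u => by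
    rw [← hxx, hm, toE_m, hxx, hxx]
  have x1 : x 1 = 1 := by rw [← hxx, h1, toE_o]
  have xt : x τ ≠ 0 := by
    intro h
    have h2 : x τ * x τ⁻¹ = 1 := by rw [← xm, mul_inv_cancel, x1]
    rw [h, zero_mul] at h2
    exact zero_ne_one h2
  have hchar : CharZero E := charZero_of_injective_algebraMap (algebraMap ℚ_[2] E).injective
  simp only [hxx] at hFc hFz'
  -- the first modification
  have hn1 : N1 SH (fun a => F (j a) τ) := by
    intro ε hε
    obtain ⟨W, hW, h⟩ := hF2 ε hε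
    obtain ⟨V, hV, h'⟩ := dn W hW
    refine ⟨V, hV, fun a v hv => ?_⟩
    have h3 := h (j a) τ (j v) (h' v hv) 1 W.one_mem
    rwa [mul_one, ← map_mul] at h3
  have hyn : N1 SD (glue j τ (fun a => -z a) (fun a => F (j a) τ + -z a)) := by
    have hnz : N1 SH (fun a => -z a) := by
      have := KP.QTwoAux.N1_mul (-1 : E) hz
      simpa using this
    exact glue_n1 X up hnz (N1_add hn1 hnz)
  obtain ⟨y, hy⟩ : ∃ y, y = glue j τ (fun a => -z a) (fun a => F (j a) τ + -z a) := ⟨_, rfl⟩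
  rw [← hy] at hyn
  have ye : ∀ a, y (j a) = -z a := fun a => by rw [hy, glue_e X]
  have yt : ∀ a, y (j a * τ) = F (j a) τ + -z a := fun a => by rw [hy, glue_t X]
  obtain ⟨F2, hF2d⟩ : ∃ F2 : D → D → E, F2 = fun s u => F s u + (y s + x s * y u - y (s * u)) := ⟨_, rfl⟩
  have F2e : ∀ s u, F2 s u = F s u + (y s + x s * y u - y (s * u)) := fun s u => by rw [hF2d]
  have F2c : ∀ s u v, F2 s u + F2 (s * u) v = x s * F2 u v + F2 s (u * v) := by
    intro s u v
    rw [F2e, F2e, F2e, F2e, xm, mul_assoc s u v]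
    linear_combination hFc s u v
  have e11 : F 1 1 = z 1 := by
    have h := hFz' 1 1
    rw [map_one, x1, mul_one, one_mul] at h
    rw [h]
    ring
  have e1t : F 1 τ = z 1 := by
    have h := hFc 1 1 τ
    rw [mul_one, x1, one_mul, one_mul] at h
    rw [← e11]
    linear_combination -h
  have yτ : y τ = 0 := by
    have h := yt 1
    rw [map_one, one_mul, e1t, add_neg_cancel] at h
    exact h
  have g1 : ∀ a b, F2 (j a) (j b) = 0 := by
    intro a b
    rw [F2e, ← map_mul, ye, ye, ye, hFz']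
    ring
  have g2 : ∀ a, F2 (j a) τ = 0 := by
    intro a
    rw [F2e, ye, yτ, yt]
    ring
  have g3 : ∀ a d, F2 (j a) d = 0 := by
    intro a d
    rcases X.cases d with ⟨b, rfl⟩ | ⟨b, rfl⟩
    · exact g1 a b
    · have h := F2c (j a) (j b) τ
      rw [← map_mul, g1, g2, g2, mul_zero, zero_add, zero_add] at h
      exact h.symm
  have g4 : ∀ a u, F2 (j a * τ) u = x (j a) * F2 τ u := by
    intro a u
    have h := F2c (j a) τ u
    rw [g3, g3, zero_add, add_zero] at h
    exact h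
  have xk : ∀ a, x (j (k a)) = x (j a) := by
    intro a
    have h := congrArg x (X.kap a)
    rw [xm, xm, mul_comm (x τ)] at h
    exact mul_right_cancel₀ xt h
  have g5 : ∀ a u, F2 τ (j a * u) = F2 τ (j a) + x (j a) * F2 τ u := by
    intro a u
    have h := F2c τ (j a) u
    rw [← X.kap, g4, xk, g3, mul_zero, zero_add] at h
    exact h.symm
  have g6 : ∀ u, F2 τ (τ * u) = F2 τ τ - x τ * F2 τ u := by
    intro u
    have h := F2c τ τ u
    rw [← X.sq, g3, add_zero] at h
    linear_combination -h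
  -- the second modification
  have hmn : N1 SD (fun u => (2 * x τ)⁻¹ * F2 τ u) := by
    refine KP.QTwoAux.N1_mul _ ?_
    have hl : ∀ {w : D → E}, N1 SD w → N1 SD (fun u => w (τ * u)) := by
      intro w hw ε hε
      obtain ⟨W, hW, h⟩ := hw ε hε
      refine ⟨W, hW, fun u v hv => ?_⟩
      have := h (τ * u) v hv
      rwa [mul_assoc] at this
    have h3 : N1 SD (fun u => F τ u) := by
      intro ε hε
      obtain ⟨W, hW, h⟩ := hF2 ε hε
      refine ⟨W, hW, fun u v hv => ?_⟩
      have h3 := h τ u 1 W.one_mem v hv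
      rwa [mul_one] at h3
    have h4 : N1 SD (fun _ => y τ) := by
      intro ε hε
      obtain ⟨W, hW⟩ := SD.ex
      exact ⟨W, hW, fun _ _ _ => by rw [sub_self, norm_zero]; exact hε⟩
    have h5 := N1_add h3 (N1_add (N1_add h4 (KP.QTwoAux.N1_mul (x τ) hyn))
      (KP.QTwoAux.N1_mul (-1 : E) (hl hyn)))
    refine fun ε hε => ?_
    obtain ⟨W, hW, h⟩ := h5 ε hε
    refine ⟨W, hW, fun u v hv => ?_⟩
    have h6 := h u v hv
    rw [F2e, F2e]
    convert h6 using 2
    ring
  have h2E : (2 : E) ≠ 0 := two_ne_zero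
  have key : ∀ s u, F2 s u =
      (2 * x τ)⁻¹ * F2 τ s + x s * ((2 * x τ)⁻¹ * F2 τ u) - (2 * x τ)⁻¹ * F2 τ (s * u) := by
    intro s u
    rcases X.cases s with ⟨a, rfl⟩ | ⟨a, rfl⟩
    · rw [g3, g5]
      ring
    · rw [g4, mul_assoc (j a) τ u, g5, g5, g6, xm]
      field_simp
      ring
  refine ⟨fun u => (2 * x τ)⁻¹ * F2 τ u + -1 * y u, N1_add hmn (KP.QTwoAux.N1_mul _ hyn), ?_⟩
  funext s u
  show F s u = _ + toE E (χ s) * _ - _
  rw [hxx]
  have h := key s u
  rw [F2e s u] at h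
  linear_combination h

end be

end Pool.Agent.Work.MP_787500_nt.OL
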