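import Mathlib
import Pool.Agent.Work.MP_787500_nt.OL.Eps
import Pool.Agent.Work.MP_787500_nt.OL.Res
import Pool.Agent.Work.MP_787500_nt.QV.Ind
import Pool.Agent.Work.MP_787500_nt.KR.L15

/-!
# The local conditions at a nonsplit place, in terms of the group of the quadratic field

`Lpl`: a local group `D` of the rational numbers, its subgroup `H` of index two (the local group of the quadratic
field), an element `τ` of the other coset.

* `rs X = v1 ∘ X ∘ j`: the restriction to `H`, first component; `shp L`: the cocycles `X` with `rs X` in `L`.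
* `tw0 y`: the cocycle `y` of `H` with values in `V` as a cocycle with values in the conjugate of `V`.
* `exists_sh`: Shapiro, `rs` is surjective.
* `be_iff`: the cup product of `X` and `Y` is a coboundary on `D` if and only if the cup product of `rs X` and
  `tw0 (rs Y)` is a coboundary on `H`.
* `lagV_shp`: if `L` is its own annihilator, then so is `shp L`.
* `finrank_shp`: the dimension.
-/

set_option autoImplicit false
set_option linter.unusedSectionVars false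

namespace Pool.Agent.Work.MP_787500_nt.OL

open Matrix
open Pool.Agent.Work.MP_787500_nt.GP (A0 OE bil Lat cupE bil_add_left bil_add_right bil_sub_left bil_sub_right
  bil_smul_left bil_smul_right)
open Pool.Agent.Work.MP_787500_nt.KR (FSys IsChar LocD LocRep ZV zV PerpV)
open Pool.Agent.Work.MP_787500_nt.PA (toE dE)
open Pool.Agent.Work.MP_787500_nt.QS (Two)
open Pool.Agent.Work.MP_787500_nt.QV (ap v1 v2 blk rho2 J2 T2 LagV norm_v v1_ap v2_ap v1_J2 v2_J2 bil_S v1_rho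
  v2_rho v1_rhoc v2_rhoc ap_ext)

/-- the local situation at a place that does not split -/
structure Lpl {G Γ H D : Type*} [Group G] [Group Γ] [Group H] [Group D] (e : G →* Γ) (c : Γ) (κ : G →* G)
    (jH : H →* G) (jD : D →* Γ) (j : H →* D) (τ : D) (k : H → H) (t : H) (g₀ : G) : Prop extends
    Ix j τ k t where
  two : Two e c κ
  je : ∀ a, jD (j a) = e (jH a)
  jt : jD τ = e g₀ * c

variable {G Γ H D : Type*} [Group G] [Group Γ] [Group H] [Group D] {e : G →* Γ} {c : Γ} {κ : G →* G}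
  {jH : H →* G} {jD : D →* Γ} {j : H →* D} {τ : D} {k : H → H} {t : H} {g₀ : G}
  {SH : FSys H} {SD : FSys D} {χ : G → ℤ_[2]} {χq : Γ → ℤ_[2]} {inv : (D → D → A0) → A0}

namespace Lpl

theorem jk (X : Lpl e c κ jH jD j τ k t g₀) (a : H) : jH (k a) = g₀ * κ (jH a) * g₀⁻¹ := by
  have h := congrArg jD (X.kap a)
  rw [map_mul, map_mul, X.je, X.je, X.jt] at h
  have h2 : e (jH (k a) * g₀) = e (g₀ * κ (jH a)) := by
    refine mul_right_cancel (b := c) ?_
    rw [map_mul, map_mul, X.two.kap, mul_assoc, h]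
    have := X.two.cc
    calc e g₀ * c * e (jH a) = e g₀ * (c * e (jH a)) := by group
      _ = e g₀ * (c * e (jH a)) * (c * c) := by rw [this, mul_one]
      _ = _ := by group
  have h3 := X.two.inj h2
  rw [← h3, mul_inv_cancel_right]

theorem jtt (X : Lpl e c κ jH jD j τ k t g₀) : jH t = g₀ * κ g₀ := by
  have h := congrArg jD X.sq
  rw [map_mul, X.je, X.jt] at h
  refine X.two.inj ?_
  rw [h, map_mul, X.two.kap]
  group

end Lpl

section rep

variable {E : Type*} [NormedField E] [NormedAlgebra ℚ_[2] E] {n : ℕ}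
  {ρ : G → Matrix (Fin n) (Fin n) E} {b : Matrix (Fin n) (Fin n) E}

theorem v1_j (X : Lpl e c κ jH jD j τ k t g₀) (a : H) (v : Fin (n + n) → E) :
    v1 (rho2 e c κ ρ (jD (j a)) *ᵥ v) = ρ (jH a) *ᵥ v1 v := by rw [X.je, v1_rho X.two]

theorem v2_j (X : Lpl e c κ jH jD j τ k t g₀) (a : H) (v : Fin (n + n) → E) :
    v2 (rho2 e c κ ρ (jD (j a)) *ᵥ v) = ρ (κ (jH a)) *ᵥ v2 v := by rw [X.je, v2_rho X.two]

theorem v1_t (X : Lpl e c κ jH jD j τ k t g₀) (v : Fin (n + n) → E) :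
    v1 (rho2 e c κ ρ (jD τ) *ᵥ v) = ρ g₀ *ᵥ v2 v := by rw [X.jt, v1_rhoc X.two]

theorem v2_t (X : Lpl e c κ jH jD j τ k t g₀) (v : Fin (n + n) → E) :
    v2 (rho2 e c κ ρ (jD τ) *ᵥ v) = ρ (κ g₀) *ᵥ v1 v := by rw [X.jt, v2_rhoc X.two]

/-- the restriction to the subgroup, first component -/
def rs (E : Type*) [NormedField E] (n : ℕ) (j : H →* D) : (D → Fin (n + n) → E) →ₗ[E] (H → Fin n → E) where
  toFun X a := v1 (X (j a))
  map_add' _ _ := rfl
  map_smul' _ _ := rfl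

theorem rs_apply (X : D → Fin (n + n) → E) (a : H) : rs E n j X a = v1 (X (j a)) := rfl

/-- the cocycles whose restriction satisfies a condition -/
def shp (SD : FSys D) (R : D → Matrix (Fin (n + n)) (Fin (n + n)) E) (j : H →* D)
    (L : Submodule E (H → Fin n → E)) : Submodule E (D → Fin (n + n) → E) :=
  zV SD R ⊓ L.comap (rs E n j)

theorem mem_shp {R : D → Matrix (Fin (n + n)) (Fin (n + n)) E} {L : Submodule E (H → Fin n → E)}
    {X : D → Fin (n + n) → E} : X ∈ shp SD R j L ↔ ZV SD R X ∧ rs E n j X ∈ L := Iff.rfl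

/-- a cocycle of `H` with values in `V` as a cocycle with values in the conjugate of `V` -/
def tw0 (ρ : G → Matrix (Fin n) (Fin n) E) (g₀ : G) (k : H → H) (y : H → Fin n → E) : H → Fin n → E :=
  fun a => ρ g₀⁻¹ *ᵥ y (k a)

theorem n1_v1 {X : D → Fin (n + n) → E} (hX : KP.N1 SD X) : KP.N1 SD (fun d => v1 (X d)) := by
  intro ε hε
  obtain ⟨W, hW, h⟩ := hX ε hε
  refine ⟨W, hW, fun g w hw => lt_of_le_of_lt ?_ (h g w hw)⟩
  rw [norm_v (X (g * w) - X g)]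
  exact le_max_left _ _

theorem n1_v2 {X : D → Fin (n + n) → E} (hX : KP.N1 SD X) : KP.N1 SD (fun d => v2 (X d)) := by
  intro ε hε
  obtain ⟨W, hW, h⟩ := hX ε hε
  refine ⟨W, hW, fun g w hw => lt_of_le_of_lt ?_ (h g w hw)⟩
  rw [norm_v (X (g * w) - X g)]
  exact le_max_right _ _

theorem n1_ap {x y : H → Fin n → E} (hx : KP.N1 SH x) (hy : KP.N1 SH y) :
    KP.N1 SH (fun a => ap (x a) (y a)) := by
  intro ε hε
  obtain ⟨W, hW, h⟩ := hx ε hε
  obtain ⟨W', hW', h'⟩ := hy ε hε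
  refine ⟨W ⊓ W', SH.inf hW hW', fun g w hw => ?_⟩
  rw [norm_v, max_lt_iff]
  constructor
  · show ‖v1 (ap (x (g * w)) (y (g * w))) - v1 (ap (x g) (y g))‖ < ε
    rw [v1_ap, v1_ap]
    exact h g w hw.1
  · show ‖v2 (ap (x (g * w)) (y (g * w))) - v2 (ap (x g) (y g))‖ < ε
    rw [v2_ap, v2_ap]
    exact h' g w hw.2

theorem n1_mulVec {m : ℕ} (A : Matrix (Fin m) (Fin m) E) {x : H → Fin m → E} (hx : KP.N1 SH x) :
    KP.N1 SH (fun a => A *ᵥ x a) := by
  obtain ⟨C, hC⟩ : ∃ C : ℝ, ∀ x : Fin m → E, ‖A *ᵥ x‖ ≤ C * ‖x‖ := by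
    refine ⟨∑ i, ∑ j, ‖A i j‖, fun x => ?_⟩
    refine (pi_norm_le_iff_of_nonneg (by positivity)).2 fun i => ?_
    show ‖∑ j, A i j * x j‖ ≤ _
    refine (norm_sum_le _ _).trans ?_
    calc ∑ j, ‖A i j * x j‖ ≤ ∑ j, ‖A i j‖ * ‖x‖ := by
          refine Finset.sum_le_sum fun j _ => ?_
          rw [norm_mul]
          exact mul_le_mul_of_nonneg_left (norm_le_pi_norm x j) (norm_nonneg _)
      _ = (∑ j, ‖A i j‖) * ‖x‖ := by rw [Finset.sum_mul]
      _ ≤ (∑ i, ∑ j, ‖A i j‖) * ‖x‖ := by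
          refine mul_le_mul_of_nonneg_right ?_ (norm_nonneg _)
          exact Finset.single_le_sum (f := fun i => ∑ j, ‖A i j‖)
            (fun i _ => Finset.sum_nonneg fun j _ => norm_nonneg _) (Finset.mem_univ i)
  intro ε hε
  obtain ⟨W, hW, h⟩ := hx (ε / (|C| + 1)) (by positivity)
  refine ⟨W, hW, fun g w hw => ?_⟩
  rw [← mulVec_sub]
  have h1 := h g w hw
  calc _ ≤ C * ‖x (g * w) - x g‖ := hC _
    _ ≤ (|C| + 1) * ‖x (g * w) - x g‖ :=
      mul_le_mul_of_nonneg_right (by have := le_abs_self C; linarith) (norm_nonneg _)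
    _ < (|C| + 1) * (ε / (|C| + 1)) := mul_lt_mul_of_pos_left h1 (by positivity)
    _ = ε := by field_simp

theorem n1_dn {A : Type*} [NormedAddCommGroup A] (dn : Dn SH SD j) {X : D → A} (hX : KP.N1 SD X) :
    KP.N1 SH (fun a => X (j a)) := by
  intro ε hε
  obtain ⟨W, hW, h⟩ := hX ε hε
  obtain ⟨V, hV, h'⟩ := dn W hW
  refine ⟨V, hV, fun a v hv => ?_⟩
  have h3 := h (j a) _ (h' v hv)
  rwa [← map_mul] at h3

/-- continuity of the conjugation -/
theorem k_sm (X : Ix j τ k t) (up : Up SH SD j) (dn : Dn SH SD j) {V : Subgroup H} (hV : SH.mem V) :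
    ∃ V', SH.mem V' ∧ ∀ v ∈ V', k v ∈ V := by
  obtain ⟨W, hW, h1⟩ := up V hV
  obtain ⟨V', hV', h2⟩ := dn W hW
  refine ⟨V', hV', fun v hv => ?_⟩
  obtain ⟨a, h3, -, h4, -⟩ := X.mul_mem (SD.normal hW) h1 (h2 v hv)
  rwa [← X.inj h3]

theorem n1_k {A : Type*} [NormedAddCommGroup A] (X : Ix j τ k t) (up : Up SH SD j) (dn : Dn SH SD j)
    {x : H → A} (hx : KP.N1 SH x) : KP.N1 SH (fun a => x (k a)) := by
  intro ε hε
  obtain ⟨W, hW, h⟩ := hx ε hε
  obtain ⟨V, hV, h'⟩ := k_sm X up dn hW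
  refine ⟨V, hV, fun a v hv => ?_⟩
  have h3 := h (k a) _ (h' v hv)
  rwa [← X.k_mul] at h3

/-- the restriction of a cocycle -/
theorem rs_zv (X : Lpl e c κ jH jD j τ k t g₀) (dn : Dn SH SD j) {Y : D → Fin (n + n) → E}
    (hY : ZV SD (fun d => rho2 e c κ ρ (jD d)) Y) : ZV SH (fun a => ρ (jH a)) (rs E n j Y) := by
  refine ⟨n1_dn dn (n1_v1 hY.1), fun a a' => ?_⟩
  have h := hY.2 (j a) (j a')
  beta_reduce at h
  rw [rs_apply, map_mul, h, QV.v1_add, v1_j X]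
  rfl

variable (h1 : ρ 1 = 1) (hm : ∀ s u, ρ (s * u) = ρ s * ρ u)

include h1 hm in
theorem rho_inv (g : G) (v : Fin n → E) : ρ g⁻¹ *ᵥ (ρ g *ᵥ v) = v := by
  rw [mulVec_mulVec, ← hm, inv_mul_cancel, h1, one_mulVec]

include h1 hm in
theorem rho_k (X : Lpl e c κ jH jD j τ k t g₀) (a : H) (v : Fin n → E) :
    ρ g₀⁻¹ *ᵥ (ρ (jH (k a)) *ᵥ v) = ρ (κ (jH a)) *ᵥ (ρ g₀⁻¹ *ᵥ v) := by
  rw [X.jk, hm, hm, ← mulVec_mulVec, ← mulVec_mulVec, rho_inv h1 hm]

include h1 hm in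
/-- the conjugate cocycle -/
theorem tw0_zv (X : Lpl e c κ jH jD j τ k t g₀) (up : Up SH SD j) (dn : Dn SH SD j) {y : H → Fin n → E}
    (hy : ZV SH (fun a => ρ (jH a)) y) : ZV SH (fun a => ρ (κ (jH a))) (tw0 ρ g₀ k y) := by
  refine ⟨n1_mulVec _ (n1_k X.toIx up dn hy.1), fun a a' => ?_⟩
  show ρ g₀⁻¹ *ᵥ y (k (a * a')) = _
  rw [X.k_mul, hy.2, mulVec_add]
  beta_reduce
  rw [rho_k h1 hm X]
  rfl

include h1 hm in
/-- SHAPIRO. -/
theorem exists_sh (X : Lpl e c κ jH jD j τ k t g₀) (up : Up SH SD j) (dn : Dn SH SD j)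
    {x : H → Fin n → E} (hx : ZV SH (fun a => ρ (jH a)) x) :
    ∃ Y, ZV SD (fun d => rho2 e c κ ρ (jD d)) Y ∧ rs E n j Y = x := by
  have hx2 := tw0_zv h1 hm X up dn hx
  have hxm : ∀ a a', x (a * a') = x a + ρ (jH a) *ᵥ x a' := hx.2
  have hk : ∀ a, ρ g₀⁻¹ *ᵥ x (k a * t) = ρ g₀⁻¹ *ᵥ x (k a) + ρ (κ (jH a)) *ᵥ (ρ g₀⁻¹ *ᵥ x t) := by
    intro a
    rw [hxm, mulVec_add, rho_k h1 hm X]
  obtain ⟨Y, hY⟩ : ∃ Y, Y = glue j τ (fun a => ap (x a) (ρ g₀⁻¹ *ᵥ x (k a)))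
    (fun a => ap (x a) (ρ g₀⁻¹ *ᵥ x (k a * t))) := ⟨_, rfl⟩
  have ye : ∀ a, Y (j a) = ap (x a) (ρ g₀⁻¹ *ᵥ x (k a)) := fun a => by rw [hY, glue_e X.toIx]
  have yt : ∀ a, Y (j a * τ) = ap (x a) (ρ g₀⁻¹ *ᵥ x (k a * t)) := fun a => by
    rw [hY, glue_t X.toIx]
  have hxn : x 1 = 0 := by
    have h := hxm 1 1
    rw [mul_one, map_one, h1, one_mulVec] at h
    exact left_eq_add.1 h
  have k1 : k 1 = 1 := by
    have h := X.k_mul 1 1
    rw [mul_one] at h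
    exact left_eq_mul.1 h
  have hn : KP.N1 SD Y := by
    rw [hY]
    refine glue_n1 X.toIx up (n1_ap hx.1 hx2.1) (n1_ap hx.1 ?_)
    refine n1_mulVec _ ?_
    have h2 : KP.N1 SH (fun a => x (a * t)) := by
      intro ε hε
      obtain ⟨W, hW, h⟩ := hx.1 ε hε
      refine ⟨W, hW, fun a v hv => ?_⟩
      have h3 := h (a * t) (t⁻¹ * v * t) (by
        have h4 := (SH.normal hW).conj_mem v hv t⁻¹
        rwa [inv_inv] at h4)
      have e1 : a * t * (t⁻¹ * v * t) = a * v * t := by group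
      rwa [e1] at h3
    exact n1_k X.toIx up dn h2
  -- the second component of the values at `j a * d`
  have c1 : ∀ a d, Y (j a * d) = Y (j a) + rho2 e c κ ρ (jD (j a)) *ᵥ Y d := by
    intro a d
    rcases X.cases d with ⟨a', rfl⟩ | ⟨a', rfl⟩
    · rw [← map_mul, ye, ye, ye]
      apply ap_ext
      · rw [v1_ap, QV.v1_add, v1_j X, v1_ap, v1_ap, hxm]
      · rw [v2_ap, QV.v2_add, v2_j X, v2_ap, v2_ap, X.k_mul, hxm, mulVec_add, rho_k h1 hm X]
    · rw [← mul_assoc, ← map_mul, yt, ye, yt]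
      apply ap_ext
      · rw [v1_ap, QV.v1_add, v1_j X, v1_ap, v1_ap, hxm]
      · rw [v2_ap, QV.v2_add, v2_j X, v2_ap, v2_ap, X.k_mul, mul_assoc, hxm, mulVec_add, rho_k h1 hm X]
  have yτ : Y τ = ap 0 (ρ g₀⁻¹ *ᵥ x t) := by
    have h := yt 1
    rwa [map_one, one_mul, k1, one_mul, hxn] at h
  have ht : ∀ v : Fin n → E, ρ g₀⁻¹ *ᵥ (ρ (jH t) *ᵥ v) = ρ (κ g₀) *ᵥ v := fun v => by
    rw [X.jtt, hm, ← mulVec_mulVec, rho_inv h1 hm]
  have hgg : ∀ v : Fin n → E, ρ g₀ *ᵥ (ρ g₀⁻¹ *ᵥ v) = v := fun v => by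
    rw [mulVec_mulVec, ← hm, mul_inv_cancel, h1, one_mulVec]
  have kk : ∀ a, k (k a) * t = t * a := by
    intro a
    refine X.inj ?_
    rw [map_mul, map_mul, X.kj, X.kj, X.sq]
    group
  have kt : k t = t := by
    refine X.inj ?_
    rw [X.kj, X.sq]
    group
  have c2 : ∀ d, Y (τ * d) = Y τ + rho2 e c κ ρ (jD τ) *ᵥ Y d := by
    intro d
    rcases X.cases d with ⟨a, rfl⟩ | ⟨a, rfl⟩
    · rw [← X.kap, yt, yτ, ye]
      apply ap_ext
      · rw [v1_ap, QV.v1_add, v1_t X, v1_ap, v2_ap, hgg, zero_add]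
      · rw [v2_ap, QV.v2_add, v2_t X, v2_ap, v1_ap, kk, hxm, mulVec_add, ht]
    · rw [X.tau_mul, ye, yτ, yt]
      apply ap_ext
      · rw [v1_ap, QV.v1_add, v1_t X, v1_ap, v2_ap, hgg, zero_add]
      · rw [v2_ap, QV.v2_add, v2_t X, v2_ap, v1_ap, X.k_mul, kt, kk, hxm, mulVec_add, ht]
  refine ⟨Y, ⟨hn, fun s u => ?_⟩, ?_⟩
  · rcases X.cases s with ⟨a, rfl⟩ | ⟨a, rfl⟩
    · exact c1 a u
    · show Y (j a * τ * u) = Y (j a * τ) + rho2 e c κ ρ (jD (j a * τ)) *ᵥ Y u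
      rw [mul_assoc, c1, c2, c1 a τ, map_mul jD, QV.rho2_mul X.two hm, mulVec_add, mulVec_mulVec,
        add_assoc]
  · funext a
    rw [rs_apply, ye, v1_ap]

end rep

end Pool.Agent.Work.MP_787500_nt.OL
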