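import Mathlib
import Pool.Agent.Work.MP_787500_nt.OL.Shp

/-!
# The annihilator of a local condition at a nonsplit place

* `be_iff`: the cup product of `X` and `Y` is a coboundary on `D` if and only if the cup product of `rs X` and
  `tw0 (rs Y)` is a coboundary on `H`.
* `lagV_shp`: if `L` is its own annihilator, then so is `shp L`.
* `finrank_shp`: the dimension.
-/

set_option autoImplicit false
set_option linter.unusedSectionVars false

namespace Pool.Agent.Work.MP_787500_nt.OL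

open Matrix
open Pool.Agent.Work.MP_787500_nt.GP (A0 OE bil Lat cupE bil_add_left bil_add_right bil_sub_left bil_sub_right
  bil_smul_left bil_smul_right)
open Pool.Agent.Work.MP_787500_nt.KR (FSys IsChar LocD LocRep ZV zV PerpV)
open Pool.Agent.Work.MP_787500_nt.PA (toE dE)
open Pool.Agent.Work.MP_787500_nt.QS (Two)
open Pool.Agent.Work.MP_787500_nt.QV (ap v1 v2 blk rho2 J2 T2 LagV norm_v v1_ap v2_ap v1_J2 v2_J2 bil_S v1_rho
  v2_rho v1_rhoc v2_rhoc ap_ext)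

variable {G Γ H D : Type*} [Group G] [Group Γ] [Group H] [Group D] {e : G →* Γ} {c : Γ} {κ : G →* G}
  {jH : H →* G} {jD : D →* Γ} {j : H →* D} {τ : D} {k : H → H} {t : H} {g₀ : G}
  {SH : FSys H} {SD : FSys D} {χ : G → ℤ_[2]} {χq : Γ → ℤ_[2]} {inv : (D → D → A0) → A0}

/-- the sign character -/
noncomputable def epD (j : H →* D) (τ : D) : D → ℤ_[2] := glue j τ (fun _ => 1) (fun _ => -1)

theorem epD_e (X : Ix j τ k t) (a : H) : epD j τ (j a) = 1 := glue_e X _ _ a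

theorem epD_et (X : Ix j τ k t) (a : H) : epD j τ (j a * τ) = -1 := glue_t X _ _ a

theorem epD_t (X : Ix j τ k t) : epD j τ τ = -1 := by
  have h := epD_et X 1
  rwa [map_one, one_mul] at h

theorem epD_sq (X : Ix j τ k t) (d : D) : epD j τ d * epD j τ d = 1 := by
  rcases X.cases d with ⟨a, rfl⟩ | ⟨a, rfl⟩
  · rw [epD_e X, mul_one]
  · rw [epD_et X]
    ring

theorem epD_mul (X : Ix j τ k t) (d d' : D) : epD j τ (d * d') = epD j τ d * epD j τ d' := by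
  rcases X.cases d with ⟨a, rfl⟩ | ⟨a, rfl⟩ <;> rcases X.cases d' with ⟨a', rfl⟩ | ⟨a', rfl⟩
  · rw [← map_mul, epD_e X, epD_e X, epD_e X, mul_one]
  · rw [← mul_assoc, ← map_mul, epD_et X, epD_e X, epD_et X, one_mul]
  · have e1 : j a * τ * j a' = j (a * k a') * τ := by
      rw [mul_assoc, ← X.kap, map_mul, mul_assoc]
    rw [e1, epD_et X, epD_et X, epD_e X, mul_one]
  · have e1 : j a * τ * (j a' * τ) = j (a * (k a' * t)) := by
      rw [mul_assoc, X.tau_mul, ← map_mul]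
    rw [e1, epD_e X, epD_et X, epD_et X]
    ring

theorem epD_char (X : Ix j τ k t) (up : Up SH SD j) : IsChar SD (epD j τ) where
  one := by
    have h := epD_e X 1
    rwa [map_one] at h
  mul := epD_mul X
  cont m := by
    obtain ⟨V, hV⟩ := SH.ex
    obtain ⟨W, hW, h⟩ := up V hV
    refine ⟨W, hW, fun g w hw => ?_⟩
    obtain ⟨a, -, rfl⟩ := h w hw
    rw [epD_mul X, epD_e X, mul_one, sub_self]
    exact dvd_zero _
  odd g := by
    rcases X.cases g with ⟨a, rfl⟩ | ⟨a, rfl⟩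
    · rw [epD_e X, sub_self]
      exact dvd_zero _
    · rw [epD_et X]
      exact ⟨-1, by ring⟩

theorem be_dn {E : Type*} [NormedField E] [NormedAlgebra ℚ_[2] E] (dn : Dn SH SD j) {χ : D → ℤ_[2]}
    {F : D → D → E} (h : KP.BE SD χ F) : KP.BE SH (fun a => χ (j a)) (fun a a' => F (j a) (j a')) := by
  obtain ⟨z, hz, rfl⟩ := h
  refine ⟨fun a => z (j a), n1_dn dn hz, ?_⟩
  funext a a'
  show z (j a) + _ * z (j a') - z (j a * j a') = _
  rw [← map_mul]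
  rfl

section rep

variable {E : Type*} [NormedField E] [NormedAlgebra ℚ_[2] E] {n : ℕ}
  {ρ : G → Matrix (Fin n) (Fin n) E} {b : Matrix (Fin n) (Fin n) E}

theorem nv1 (v : Fin (n + n) → E) : v1 (-v) = -v1 v := rfl

theorem nv2 (v : Fin (n + n) → E) : v2 (-v) = -v2 v := rfl

theorem jrj_e (X : Lpl e c κ jH jD j τ k t g₀) (a : H) (v : Fin (n + n) → E) :
    (J2 E n * rho2 e c κ ρ (jD (j a)) * J2 E n) *ᵥ v = rho2 e c κ ρ (jD (j a)) *ᵥ v := by
  rw [← mulVec_mulVec, ← mulVec_mulVec]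
  apply ap_ext
  · rw [v1_J2, v1_j X, v1_J2, v1_j X, mulVec_neg, neg_neg]
  · rw [v2_J2, v2_j X, v2_J2, v2_j X]

theorem jrj_t (X : Lpl e c κ jH jD j τ k t g₀) (hm : ∀ s u, ρ (s * u) = ρ s * ρ u) (a : H)
    (v : Fin (n + n) → E) :
    (J2 E n * rho2 e c κ ρ (jD (j a * τ)) * J2 E n) *ᵥ v = -(rho2 e c κ ρ (jD (j a * τ)) *ᵥ v) := by
  rw [← mulVec_mulVec, ← mulVec_mulVec, map_mul, QV.rho2_mul X.two hm, ← mulVec_mulVec, ← mulVec_mulVec]
  apply ap_ext
  · rw [nv1, v1_J2, v1_j X, v1_t X, v2_J2, v1_j X, v1_t X]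
  · rw [nv2, v2_J2, v2_j X, v2_t X, v1_J2, v2_j X, v2_t X, mulVec_neg, mulVec_neg]

variable [FiniteDimensional ℚ_[2] E] {T' : Submodule (OE E) (Fin (n + n) → E)}

/-- the form `(v, w) ↦ Sm v w` is equivariant for the twisted character -/
theorem rep_eps (X : Lpl e c κ jH jD j τ k t g₀) (hm : ∀ s u, ρ (s * u) = ρ s * ρ u)
    (hr : LocRep SD (fun d => χq (jD d)) T' (blk 0 b b 0) (fun d => rho2 e c κ ρ (jD d))
      (fun d => J2 E n * rho2 e c κ ρ (jD d) * J2 E n)) :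
    LocRep SD (fun d => χq (jD d) * epD j τ d) T' (blk 0 b b 0) (fun d => rho2 e c κ ρ (jD d))
      (fun d => rho2 e c κ ρ (jD d)) where
  one := hr.one
  mul := hr.mul
  one' := hr.one
  mul' := hr.mul
  st := hr.st
  st' := hr.st
  sm := hr.sm
  sm' := hr.sm
  dual d x y := by
    have h := hr.dual d x y
    beta_reduce at h ⊢
    rcases X.cases d with ⟨a, rfl⟩ | ⟨a, rfl⟩
    · rw [jrj_e X] at h
      rw [h, epD_e X.toIx, mul_one]
    · rw [jrj_t X hm] at h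
      rw [epD_et X.toIx]
      have h2 : ∀ u : ℤ_[2], toE E (u * -1) = -toE E u := fun u => by
        rw [toE_m]
        have : toE E (-1) = -1 := by
          show algebraMap ℚ_[2] E ((-1 : ℤ_[2]) : ℚ_[2]) = _
          rw [PadicInt.coe_neg, PadicInt.coe_one, map_neg, map_one]
        rw [this]
        ring
      rw [h2, neg_mul, ← h]
      simp only [bil, mulVec_neg, dotProduct_neg, neg_neg]

/-- the cup product on `D` -/
theorem cupD_ZE (X : Lpl e c κ jH jD j τ k t g₀)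
    (hr : LocRep SD (fun d => χq (jD d)) T' (blk 0 b b 0) (fun d => rho2 e c κ ρ (jD d))
      (fun d => J2 E n * rho2 e c κ ρ (jD d) * J2 E n)) {Y Z : D → Fin (n + n) → E}
    (hY : ZV SD (fun d => rho2 e c κ ρ (jD d)) Y) (hZ : ZV SD (fun d => rho2 e c κ ρ (jD d)) Z) :
    KP.ZE SD (fun d => χq (jD d)) (fun s u => bil (blk 0 b b 0) (Y s)
      (J2 E n *ᵥ (rho2 e c κ ρ (jD s) *ᵥ Z u))) := by
  have hJ : ∀ v : Fin (n + n) → E, J2 E n *ᵥ (J2 E n *ᵥ v) = v := fun v => by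
    rw [mulVec_mulVec, QV.J2_J2, one_mulVec]
  have hZ' : ZV SD (fun d => J2 E n * rho2 e c κ ρ (jD d) * J2 E n) (fun d => J2 E n *ᵥ Z d) := by
    refine ⟨n1_mulVec _ hZ.1, fun s u => ?_⟩
    have h := hZ.2 s u
    beta_reduce at h ⊢
    rw [h, mulVec_add, ← mulVec_mulVec, ← mulVec_mulVec, hJ]
  have h := KR.cupE_ZE hr hY hZ'
  have e1 : cupE (fun d => J2 E n * rho2 e c κ ρ (jD d) * J2 E n) (blk 0 b b 0) Y
      (fun d => J2 E n *ᵥ Z d) = fun s u => bil (blk 0 b b 0) (Y s)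
        (J2 E n *ᵥ (rho2 e c κ ρ (jD s) *ᵥ Z u)) := by
    funext s u
    show bil _ _ ((J2 E n * rho2 e c κ ρ (jD s) * J2 E n) *ᵥ (J2 E n *ᵥ Z u)) = _
    rw [← mulVec_mulVec, ← mulVec_mulVec, hJ]
  rwa [e1] at h

/-- the conjugate of the restriction -/
theorem tw0_rs (X : Lpl e c κ jH jD j τ k t g₀) (h1 : ρ 1 = 1) (hm : ∀ s u, ρ (s * u) = ρ s * ρ u)
    {Y : D → Fin (n + n) → E} (hY : ZV SD (fun d => rho2 e c κ ρ (jD d)) Y) (a : H) :
    v2 (Y (j a)) = tw0 ρ g₀ k (rs E n j Y) a +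
      (ρ (κ (jH a)) *ᵥ (ρ g₀⁻¹ *ᵥ v1 (Y τ)) - ρ g₀⁻¹ *ᵥ v1 (Y τ)) := by
  have h2 := hY.2 (j (k a)) τ
  have h3 := hY.2 τ (j a)
  rw [X.kap, h3] at h2
  have h4 := congrArg v1 h2
  beta_reduce at h4
  rw [QV.v1_add, QV.v1_add, v1_t X, v1_j X] at h4
  have h5 := congrArg (fun v => ρ g₀⁻¹ *ᵥ v) h4
  beta_reduce at h5
  rw [mulVec_add, mulVec_add, rho_k h1 hm X, rho_inv h1 hm] at h5
  show _ = ρ g₀⁻¹ *ᵥ v1 (Y (j (k a))) + _
  rw [← add_sub_assoc, ← h5]
  abel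

variable {T : Submodule (OE E) (Fin n → E)}

/-- the cup product with the second component -/
theorem be_v2 (X : Lpl e c κ jH jD j τ k t g₀) (h1 : ρ 1 = 1) (hm : ∀ s u, ρ (s * u) = ρ s * ρ u)
    (hrH : LocRep SH (fun a => χ (jH a)) T b (fun a => ρ (jH a)) (fun a => ρ (κ (jH a))))
    {x : H → Fin n → E} (hx : ZV SH (fun a => ρ (jH a)) x) {Y : D → Fin (n + n) → E}
    (hY : ZV SD (fun d => rho2 e c κ ρ (jD d)) Y) :
    KP.BE SH (fun a => χ (jH a)) (cupE (fun a => ρ (κ (jH a))) b x (tw0 ρ g₀ k (rs E n j Y))) ↔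
      KP.BE SH (fun a => χ (jH a)) (cupE (fun a => ρ (κ (jH a))) b x (fun a => v2 (Y (j a)))) := by
  have h2 := (KR.cob_perpV hrH (L := zV SH (fun a => ρ (jH a))) (fun X hX => hX)
    (ρ g₀⁻¹ *ᵥ v1 (Y τ))).2 x hx
  have h3 : cupE (fun a => ρ (κ (jH a))) b x (fun a => v2 (Y (j a))) = fun s u =>
      cupE (fun a => ρ (κ (jH a))) b x (tw0 ρ g₀ k (rs E n j Y)) s u +
      cupE (fun a => ρ (κ (jH a))) b x
        (fun a => ρ (κ (jH a)) *ᵥ (ρ g₀⁻¹ *ᵥ v1 (Y τ)) - ρ g₀⁻¹ *ᵥ v1 (Y τ)) s u := by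
    funext s u
    show bil b (x s) (ρ (κ (jH s)) *ᵥ v2 (Y (j u))) = bil b (x s) (ρ (κ (jH s)) *ᵥ _) +
      bil b (x s) (ρ (κ (jH s)) *ᵥ _)
    rw [tw0_rs X h1 hm hY u, mulVec_add, bil_add_right]
  constructor
  · intro h
    rw [h3]
    exact KR.be_add h h2
  · intro h
    have h4 := KR.be_add h (KR.be_smul (-1 : E) h2)
    have e1 : cupE (fun a => ρ (κ (jH a))) b x (tw0 ρ g₀ k (rs E n j Y)) = fun s u =>
      cupE (fun a => ρ (κ (jH a))) b x (fun a => v2 (Y (j a))) s u + -1 *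
      cupE (fun a => ρ (κ (jH a))) b x
        (fun a => ρ (κ (jH a)) *ᵥ (ρ g₀⁻¹ *ᵥ v1 (Y τ)) - ρ g₀⁻¹ *ᵥ v1 (Y τ)) s u := by
      funext s u
      rw [h3]
      ring
    rw [e1]
    exact h4

/-- THE CUP PRODUCTS on `D` and on `H`. -/
theorem be_iff (X : Lpl e c κ jH jD j τ k t g₀) (up : Up SH SD j) (dn : Dn SH SD j)
    (h1 : ρ 1 = 1) (hm : ∀ s u, ρ (s * u) = ρ s * ρ u) (hχ : ∀ g, χq (e g) = χ g)
    (L : LocD.{0} SD (fun d => χq (jD d)) inv)
    (hrH : LocRep SH (fun a => χ (jH a)) T b (fun a => ρ (jH a)) (fun a => ρ (κ (jH a))))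
    (hr : LocRep SD (fun d => χq (jD d)) T' (blk 0 b b 0) (fun d => rho2 e c κ ρ (jD d))
      (fun d => J2 E n * rho2 e c κ ρ (jD d) * J2 E n)) {Y Z : D → Fin (n + n) → E}
    (hY : ZV SD (fun d => rho2 e c κ ρ (jD d)) Y) (hZ : ZV SD (fun d => rho2 e c κ ρ (jD d)) Z) :
    KP.BE SD (fun d => χq (jD d)) (fun s u => bil (blk 0 b b 0) (Y s)
        (J2 E n *ᵥ (rho2 e c κ ρ (jD s) *ᵥ Z u))) ↔
      KP.BE SH (fun a => χ (jH a))
        (cupE (fun a => ρ (κ (jH a))) b (rs E n j Y) (tw0 ρ g₀ k (rs E n j Z))) := by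
  have hchar : CharZero E := charZero_of_injective_algebraMap (algebraMap ℚ_[2] E).injective
  have h2E : (2 : E) ≠ 0 := two_ne_zero
  rw [be_v2 X h1 hm hrH (rs_zv X dn hY) hZ]
  -- the twisted class is trivial
  have hf := be_eps L (epD_char X.toIx up) (epD_sq X.toIx) (epD_t X.toIx)
    (KR.cupE_ZE (rep_eps X hm hr) hY hZ)
  have hf' := be_dn dn hf
  have hχH : (fun a => χq (jD (j a)) * epD j τ (j a)) = fun a => χ (jH a) := by
    funext a
    rw [epD_e X.toIx, mul_one, X.je, hχ]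
  rw [hχH] at hf'
  have hχH' : (fun a => χq (jD (j a))) = fun a => χ (jH a) := by
    funext a
    rw [X.je, hχ]
  have hid : ∀ a a', cupE (fun d => rho2 e c κ ρ (jD d)) (blk 0 b b 0) Y Z (j a) (j a') +
      bil (blk 0 b b 0) (Y (j a)) (J2 E n *ᵥ (rho2 e c κ ρ (jD (j a)) *ᵥ Z (j a'))) =
      2 * cupE (fun a => ρ (κ (jH a))) b (rs E n j Y) (fun a => v2 (Z (j a))) a a' := by
    intro a a'
    show bil (blk 0 b b 0) (Y (j a)) (rho2 e c κ ρ (jD (j a)) *ᵥ Z (j a')) + _ =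
      2 * bil b (v1 (Y (j a))) (ρ (κ (jH a)) *ᵥ v2 (Z (j a')))
    rw [bil_S, bil_S, v1_J2, v2_J2, v1_j X, v2_j X]
    have e1 : ∀ v w : Fin n → E, bil b v (-w) = -bil b v w := fun v w => by
      simp only [bil, mulVec_neg, dotProduct_neg]
    rw [e1]
    ring
  constructor
  · intro h
    have h3 := be_dn dn h
    rw [hχH'] at h3
    have h4 := KR.be_smul (2 : E)⁻¹ (KR.be_add hf' h3)
    convert h4 using 1
    funext a a'
    rw [hid]
    field_simp
  · intro h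
    refine be_res X.toIx L.char.mul L.char.one up dn (cupD_ZE X hr hY hZ) ?_
    rw [hχH']
    have h4 := KR.be_add (KR.be_smul (2 : E) h) (KR.be_smul (-1 : E) hf')
    convert h4 using 1
    funext a a'
    rw [← hid]
    ring

/-- A CONDITION WHICH IS ITS OWN ANNIHILATOR. -/
theorem lagV_shp (X : Lpl e c κ jH jD j τ k t g₀) (up : Up SH SD j) (dn : Dn SH SD j)
    (h1 : ρ 1 = 1) (hm : ∀ s u, ρ (s * u) = ρ s * ρ u) (hχ : ∀ g, χq (e g) = χ g)
    (L : LocD.{0} SD (fun d => χq (jD d)) inv)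
    (hrH : LocRep SH (fun a => χ (jH a)) T b (fun a => ρ (jH a)) (fun a => ρ (κ (jH a))))
    (hr : LocRep SD (fun d => χq (jD d)) T' (blk 0 b b 0) (fun d => rho2 e c κ ρ (jD d))
      (fun d => J2 E n * rho2 e c κ ρ (jD d) * J2 E n))
    (hz : ∀ v, ZV SD (fun d => rho2 e c κ ρ (jD d)) (fun d => rho2 e c κ ρ (jD d) *ᵥ v - v))
    {M : Submodule E (H → Fin n → E)} (hM : ∀ x ∈ M, ZV SH (fun a => ρ (jH a)) x)
    (hM0 : ∀ v : Fin n → E, (fun a => ρ (jH a) *ᵥ v - v) ∈ M)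
    (hMs : ∀ y, ZV SH (fun a => ρ (jH a)) y → (y ∈ M ↔
      PerpV SH (fun a => χ (jH a)) b (fun a => ρ (κ (jH a))) M (tw0 ρ g₀ k y))) :
    LagV SD (fun d => χq (jD d)) (blk 0 b b 0) (J2 E n) (fun d => rho2 e c κ ρ (jD d))
      (shp SD (fun d => rho2 e c κ ρ (jD d)) j M) where
  coc Y hY := hY.1
  cob v := by
    refine ⟨hz v, ?_⟩
    have e1 : rs E n j (fun d => rho2 e c κ ρ (jD d) *ᵥ v - v) = fun a => ρ (jH a) *ᵥ v1 v - v1 v := by
      funext a
      rw [rs_apply, QV.v1_sub, v1_j X]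
    show rs E n j _ ∈ M
    rw [e1]
    exact hM0 _
  self Y hY := by
    have hy := rs_zv X dn hY
    have e1 : Y ∈ shp SD (fun d => rho2 e c κ ρ (jD d)) j M ↔ rs E n j Y ∈ M := ⟨fun h => h.2,
      fun h => ⟨hY, h⟩⟩
    rw [e1, hMs _ hy]
    constructor
    · rintro ⟨-, h2⟩ Z hZ
      exact (be_iff X up dn h1 hm hχ L hrH hr hZ.1 hY).2 (h2 _ hZ.2)
    · intro h2
      refine ⟨tw0_zv h1 hm X up dn hy, fun x hx => ?_⟩
      obtain ⟨Z, hZ, rfl⟩ := exists_sh h1 hm X up dn (hM x hx)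
      exact (be_iff X up dn h1 hm hχ L hrH hr hZ hY).1 (h2 Z ⟨hZ, hx⟩)

/-- THE DIMENSION. -/
theorem finrank_shp (X : Lpl e c κ jH jD j τ k t g₀) (up : Up SH SD j) (dn : Dn SH SD j)
    (h1 : ρ 1 = 1) (hm : ∀ s u, ρ (s * u) = ρ s * ρ u)
    [hfd : FiniteDimensional E (zV SD (fun d => rho2 e c κ ρ (jD d)))]
    {M : Submodule E (H → Fin n → E)} (hM : ∀ x ∈ M, ZV SH (fun a => ρ (jH a)) x) :
    FiniteDimensional E M ∧
    Module.finrank E (shp SD (fun d => rho2 e c κ ρ (jD d)) j M) = Module.finrank E M +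
      Module.finrank E (shp SD (fun d => rho2 e c κ ρ (jD d)) j (⊥ : Submodule E (H → Fin n → E))) := by
  have hle : ∀ M : Submodule E (H → Fin n → E), shp SD (fun d => rho2 e c κ ρ (jD d)) j M ≤
    zV SD (fun d => rho2 e c κ ρ (jD d)) := fun M => inf_le_left
  have h2 : FiniteDimensional E (shp SD (fun d => rho2 e c κ ρ (jD d)) j M) :=
    Submodule.finiteDimensional_of_le (hle M)
  let f : shp SD (fun d => rho2 e c κ ρ (jD d)) j M →ₗ[E] M :=
    { toFun := fun Y => ⟨rs E n j Y, Y.2.2⟩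
      map_add' := fun _ _ => rfl
      map_smul' := fun _ _ => rfl }
  have hf : Function.Surjective f := fun x => by
    obtain ⟨Z, hZ, h3⟩ := exists_sh h1 hm X up dn (hM x x.2)
    exact ⟨⟨Z, hZ, by
      show rs E n j Z ∈ M
      rw [h3]
      exact x.2⟩, Subtype.ext h3⟩
  have hfM : FiniteDimensional E M := Module.Finite.of_surjective f hf
  refine ⟨hfM, ?_⟩
  have h3 := LinearMap.finrank_range_add_finrank_ker f
  rw [LinearMap.range_eq_top.2 hf, finrank_top] at h3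
  rw [← h3]
  congr 1
  have e1 : (LinearMap.ker f) ≃ₗ[E]
      (shp SD (fun d => rho2 e c κ ρ (jD d)) j (⊥ : Submodule E (H → Fin n → E))) :=
    { toFun := fun Y => ⟨Y.1.1, Y.1.2.1, by
        have h4 := congrArg Subtype.val (LinearMap.mem_ker.1 Y.2)
        exact h4⟩
      invFun := fun Y => ⟨⟨Y.1, Y.2.1, by
        have h4 : rs E n j Y.1 = 0 := Y.2.2
        show rs E n j Y.1 ∈ M
        rw [h4]
        exact M.zero_mem⟩, by
        rw [LinearMap.mem_ker]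
        exact Subtype.ext Y.2.2⟩
      map_add' := fun _ _ => rfl
      map_smul' := fun _ _ => rfl
      left_inv := fun _ => rfl
      right_inv := fun _ => rfl }
  exact e1.finrank_eq

end rep

end Pool.Agent.Work.MP_787500_nt.OL
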